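import Mathlib

/-!
# Exact sequences of Hopf algebras with a principal augmentation ideal: definitions
-/

set_option autoImplicit false

open scoped TensorProduct

namespace Pool.Agent.Helper90.R2

universe u

/-- `∑ b₁ χ(b₂)`, for a homomorphism of algebras `χ : B → k`. -/
noncomputable def winding (k : Type u) [Field k] {B : Type u} [Ring B] [HopfAlgebra k B]
    (χ : B →ₐ[k] k) (b : B) : B :=
  TensorProduct.rid k B (TensorProduct.map LinearMap.id χ.toLinearMap
    (Coalgebra.comul (R := k) b))

/-- The homomorphism of algebras `χ : B → k` satisfies `X b ∈ (∑ b₁ χ(b₂)) X + B X²` for all `b`. -/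
def IsCharOf (k : Type u) [Field k] {B : Type u} [Ring B] [HopfAlgebra k B] (X : B)
    (χ : B →ₐ[k] k) : Prop :=
  ∀ b : B, ∃ b' : B, X * b = winding k χ b * X + b' * X ^ 2

/-- Some power `χ ^ n`, with `n` invertible in `k`, is central in the dual algebra of `B` (linear
forms on `B` with the convolution product). -/
def CentralPower (k : Type u) [Field k] {B : Type u} [Ring B] [HopfAlgebra k B]
    (χ : B →ₐ[k] k) : Prop :=
  ∃ n : ℕ, (n : k) ≠ 0 ∧ ∀ f : B →ₗ[k] k,
    WithConv.toConv χ.toLinearMap ^ n * WithConv.toConv f =
      WithConv.toConv f * WithConv.toConv χ.toLinearMap ^ n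

/-- `k → A → B → C → k` is an exact sequence of Hopf algebras: `ι` is injective, `π` is surjective and
the kernel of `π` is the left ideal generated by the image of the augmentation ideal `A⁺`.
Moreover `A⁺` is a principal left ideal `A x`, and for `X = ι x` one of the following holds:

* `x` is nilpotent, and every homomorphism of algebras `χ : B → k` which satisfies
  `X b ∈ (∑ b₁ χ(b₂)) X + B X²` for all `b` has a power `χ ^ n`, `n` invertible in `k`, which is
  central in the dual algebra of `B`;
* there is a homomorphism of algebras `χ : B → k` with these two properties. -/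
structure PrincipalKernel (k : Type u) [Field k] {A B C : Type u} [Ring A] [Ring B] [Ring C]
    [HopfAlgebra k A] [HopfAlgebra k B] [HopfAlgebra k C] (ι : A →ₐc[k] B) (π : B →ₐc[k] C) :
    Prop where
  inj : Function.Injective ι
  surj : Function.Surjective π
  ker : ∀ b : B, π b = 0 ↔
    b ∈ Ideal.span (ι '' {a : A | Coalgebra.counit (R := k) a = 0})
  gen : ∃ x : A, (∀ a : A, Coalgebra.counit (R := k) a = 0 ↔ ∃ a' : A, a = a' * x) ∧
    ((IsNilpotent x ∧ ∀ χ : B →ₐ[k] k, IsCharOf k (ι x) χ → CentralPower k χ) ∨
      ∃ χ : B →ₐ[k] k, IsCharOf k (ι x) χ ∧ CentralPower k χ)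

/-- `B` is obtained from `C` by finitely many such exact sequences `k → A → B → B' → k`. -/
inductive PrincipalSteps (k : Type u) [Field k] (C : Type u) [Ring C] [HopfAlgebra k C] :
    (B : Type u) → [Ring B] → [HopfAlgebra k B] → Prop
  /-- no step -/
  | refl : PrincipalSteps k C C
  /-- one more exact sequence -/
  | step {A B B' : Type u} [Ring A] [Ring B] [Ring B'] [HopfAlgebra k A] [HopfAlgebra k B]
      [HopfAlgebra k B'] (ι : A →ₐc[k] B) (π : B →ₐc[k] B') (hex : PrincipalKernel k ι π)
      (h : PrincipalSteps k C B') : PrincipalSteps k C B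

end Pool.Agent.Helper90.R2
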