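import Pool.Agent.Helper90.R2.Block
import Pool.Agent.Helper90.R2.Defs

/-!
# Exact sequences of Hopf algebras with a principal augmentation ideal: the theorem
-/

set_option linter.unusedSectionVars false
set_option autoImplicit false

open CategoryTheory
open scoped TensorProduct
open WithConv
open Pool.Agent.Helper59.FG Pool.Agent.Helper90.UN
open Pool.Agent.Helper90.FC hiding rho
open Pool.Agent.Helper56.SS hiding rho
open Pool.Agent.Helper90.R1 Pool.Agent.Helper77.R1

namespace Pool.Agent.Helper90.R2

universe u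

section

variable {k : Type u} [Field k] {A B C : Type u} [Ring A] [Ring B] [Ring C]
variable [HopfAlgebra k A] [HopfAlgebra k B] [HopfAlgebra k C]

theorem winding_eq (χ : B →ₐ[k] k) (b : B) : winding k χ b = rwn χ b := by
  rw [rwn_apply]
  rfl

theorem isCharOf_iff (X : B) (χ : B →ₐ[k] k) : IsCharOf k X χ ↔ Twist X χ := by
  constructor
  · intro h b
    obtain ⟨b', hb'⟩ := h b
    exact ⟨b', by rw [hb', winding_eq, add_sub_cancel_left]⟩
  · intro h b
    obtain ⟨b', hb'⟩ := h b
    exact ⟨b', by rw [← hb', winding_eq, add_sub_cancel]⟩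

/-- The generator of the augmentation ideal of the kernel is coinvariant. -/
theorem co_of (ι : A →ₐc[k] B) (π : B →ₐc[k] C) (hs : Function.Surjective π)
    (hker : ∀ b : B, π b = 0 ↔
      b ∈ Ideal.span (ι '' {a : A | Coalgebra.counit (R := k) a = 0})) (x : A)
    (hx : ∀ a : A, Coalgebra.counit (R := k) a = 0 ↔ ∃ a' : A, a = a' * x) : Co π (ι x) := by
  have hk : ∀ b : B, π b = 0 ↔ ∃ b' : B, b = b' * ι x := by
    intro b
    rw [hker]
    constructor
    · intro h
      induction h using Submodule.span_induction with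
      | mem y hy =>
        obtain ⟨a, ha, rfl⟩ := hy
        obtain ⟨a', rfl⟩ := (hx a).1 ha
        exact ⟨ι a', map_mul ι a' x⟩
      | zero => exact ⟨0, by rw [zero_mul]⟩
      | add y z _ _ hy hz =>
        obtain ⟨y', rfl⟩ := hy
        obtain ⟨z', rfl⟩ := hz
        exact ⟨y' + z', by rw [add_mul]⟩
      | smul c y _ hy =>
        obtain ⟨y', rfl⟩ := hy
        exact ⟨c * y', by rw [smul_eq_mul, mul_assoc]⟩
    · rintro ⟨b', rfl⟩
      exact Ideal.mul_mem_left _ _ (Ideal.subset_span ⟨x, (hx x).2 ⟨1, (one_mul x).symm⟩, rfl⟩)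
  have hpi : ∀ a : A, π (ι a) = algebraMap k C (Coalgebra.counit (R := k) a) := by
    intro a
    have h1 : π (ι (a - algebraMap k A (Coalgebra.counit (R := k) a))) = 0 := by
      rw [hker]
      refine Ideal.subset_span ⟨_, ?_, rfl⟩
      change Coalgebra.counit (R := k) (a - algebraMap k A (Coalgebra.counit (R := k) a)) = 0
      rw [map_sub, Bialgebra.counit_algebraMap, sub_self]
    have e1 := AlgHomClass.commutes ι (Coalgebra.counit (R := k) a)
    have e2 := AlgHomClass.commutes π (Coalgebra.counit (R := k) a)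
    rw [map_sub, map_sub, e1, e2, sub_eq_zero] at h1
    exact h1
  refine ⟨hs, hk, ?_, ?_⟩
  · have h : ∀ t : A ⊗[k] A, Algebra.TensorProduct.map (π : B →ₐ[k] C) (AlgHom.id k B)
        (TensorProduct.map ι.toCoalgHom.toLinearMap ι.toCoalgHom.toLinearMap t) =
        (1 : C) ⊗ₜ[k] ι (TensorProduct.lid k A ((Coalgebra.counit (R := k)).rTensor A t)) := by
      intro t
      induction t using TensorProduct.induction_on with
      | zero => simp
      | add s t hs ht => simp only [map_add, hs, ht, TensorProduct.tmul_add]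
      | tmul c a =>
        rw [TensorProduct.map_tmul, Algebra.TensorProduct.map_tmul, LinearMap.rTensor_tmul,
          TensorProduct.lid_tmul, map_smul, TensorProduct.tmul_smul]
        have h1 : (π : B →ₐ[k] C) (ι.toCoalgHom.toLinearMap c) =
            algebraMap k C (Coalgebra.counit (R := k) c) := hpi c
        rw [h1, Algebra.algebraMap_eq_smul_one, TensorProduct.smul_tmul']
        rfl
    rw [Pool.Agent.Helper90.UN.map_comul, h, Coalgebra.rTensor_counit_comul,
      TensorProduct.lid_tmul, one_smul]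
  · have h : ∀ t : A ⊗[k] A, Algebra.TensorProduct.map (AlgHom.id k B) (π : B →ₐ[k] C)
        (TensorProduct.map ι.toCoalgHom.toLinearMap ι.toCoalgHom.toLinearMap t) =
        ι (TensorProduct.rid k A ((Coalgebra.counit (R := k)).lTensor A t)) ⊗ₜ[k] (1 : C) := by
      intro t
      induction t using TensorProduct.induction_on with
      | zero => simp
      | add s t hs ht => simp only [map_add, hs, ht, TensorProduct.add_tmul]
      | tmul a c =>
        rw [TensorProduct.map_tmul, Algebra.TensorProduct.map_tmul, LinearMap.lTensor_tmul,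
          TensorProduct.rid_tmul, map_smul]
        have h1 : (π : B →ₐ[k] C) (ι.toCoalgHom.toLinearMap c) =
            algebraMap k C (Coalgebra.counit (R := k) c) := hpi c
        rw [h1, Algebra.algebraMap_eq_smul_one, TensorProduct.tmul_smul,
          TensorProduct.smul_tmul']
        rfl
    rw [Pool.Agent.Helper90.UN.map_comul, h, Coalgebra.lTensor_counit_comul,
      TensorProduct.rid_tmul, one_smul]

theorem finite_of_surjective' [Module.Finite k B] (π : B →ₐc[k] C)
    (hs : Function.Surjective π) : Module.Finite k C :=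
  Module.Finite.of_surjective (π : B →ₗ[k] C) hs

/-- The character exists. -/
theorem exists_isCharOf [Module.Finite k B] (ι : A →ₐc[k] B) (π : B →ₐc[k] C)
    (hs : Function.Surjective π) (hker : ∀ b : B, π b = 0 ↔
      b ∈ Ideal.span (ι '' {a : A | Coalgebra.counit (R := k) a = 0})) (x : A)
    (hx : ∀ a : A, Coalgebra.counit (R := k) a = 0 ↔ ∃ a' : A, a = a' * x)
    (hn : IsNilpotent x) : ∃ χ : B →ₐ[k] k, IsCharOf k (ι x) χ := by
  have hfC := finite_of_surjective' π hs
  have G := co_of ι π hs hker x hx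
  have hX : IsNilpotent (ι x) := by
    obtain ⟨n, hn⟩ := hn
    exact ⟨n, by rw [← map_pow, hn, map_zero]⟩
  by_cases h0 : ι x = 0
  · refine ⟨Bialgebra.counitAlgHom k B, fun b => ⟨0, ?_⟩⟩
    rw [h0, zero_mul, mul_zero, zero_mul, add_zero]
  · obtain ⟨χ, hχ⟩ := G.exists_chi hX h0
    exact ⟨χ, (isCharOf_iff _ _).2 hχ⟩

/-- One step. -/
theorem fgc_principalKernel [Module.Finite k B] (ι : A →ₐc[k] B) (π : B →ₐc[k] C)
    (h : PrincipalKernel k ι π) (hC : FGC k C) : FGC k B := by
  have hfC := finite_of_surjective' π h.surj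
  obtain ⟨x, hx, h'⟩ := h.gen
  have h2 : ∃ χ : B →ₐ[k] k, IsCharOf k (ι x) χ ∧ CentralPower k χ := by
    rcases h' with ⟨hn, h'⟩ | h'
    · obtain ⟨χ, hχ⟩ := exists_isCharOf ι π h.surj h.ker x hx hn
      exact ⟨χ, hχ, h' χ hχ⟩
    · exact h'
  obtain ⟨χ, hχ, hc⟩ := h2
  exact fgc_of_fge ((co_of ι π h.surj h.ker x hx).fge_all
    ⟨χ, (isCharOf_iff (ι x) χ).1 hχ, hc⟩ (fge_of_fgc hC))

/-- Finitely many steps. -/
theorem fgc_principalSteps {C : Type u} [Ring C] [HopfAlgebra k C] (hC : FGC k C) :
    ∀ {B : Type u} [Ring B] [HopfAlgebra k B], PrincipalSteps k C B → Module.Finite k B →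
      FGC k B := by
  intro B _ _ h
  induction h with
  | refl => exact fun _ => hC
  | step ι π hex h ih =>
    intro hf
    exact fgc_principalKernel ι π hex (ih (finite_of_surjective' π hex.surj))

end

end Pool.Agent.Helper90.R2
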