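import Pool.Agent.Helper90.R2.Prin
import Pool.Agent.Helper56.SS.Steps

/-!
# Principal kernels which are not nilpotent

`ker π = B X`. Let `J = B X^m = B X^(m+1) = …`. Then `J` is a Hopf ideal, generated by an idempotent
as a left ideal, and `X` is nilpotent modulo `J`.
-/

set_option linter.unusedSectionVars false
set_option autoImplicit false

open CategoryTheory
open scoped TensorProduct
open WithConv
open Pool.Agent.Helper59.FG Pool.Agent.Helper90.UN
open Pool.Agent.Helper90.FC hiding rho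
open Pool.Agent.Helper56.SS hiding rho
open Pool.Agent.Helper90.R1 Pool.Agent.Helper77.R1

namespace Pool.Agent.Helper90.R2

universe u

section

variable {k : Type u} [Field k] {B C : Type u} [Ring B] [Ring C]
variable [HopfAlgebra k B] [HopfAlgebra k C]

/-- Homomorphisms factor through surjections. -/
theorem exists_desc' {B' : Type u} [Ring B'] [HopfAlgebra k B'] (q : B →ₐc[k] B')
    (hq : Function.Surjective q) (f : B →ₐc[k] C) (h0 : ∀ b, q b = 0 → f b = 0) :
    ∃ g : B' →ₐc[k] C, ∀ b, g (q b) = f b := by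
  have h1 : ∀ b c : B, q b = q c → f b = f c := by
    intro b c h
    have h2 := h0 (b - c) (by rw [map_sub, h, sub_self])
    rw [map_sub, sub_eq_zero] at h2
    exact h2
  let s : B' → B := Function.surjInv hq
  have hs : ∀ x, q (s x) = x := Function.surjInv_eq hq
  let g₀ : B' →ₐ[k] C :=
    { toFun := fun x => f (s x)
      map_one' := by
        rw [← map_one f]; exact h1 _ _ (by rw [hs, map_one])
      map_mul' := fun x y => by
        rw [← map_mul f]; exact h1 _ _ (by rw [hs, map_mul, hs, hs])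
      map_zero' := by
        rw [← map_zero f]; exact h1 _ _ (by rw [hs, map_zero])
      map_add' := fun x y => by
        rw [← map_add f]; exact h1 _ _ (by rw [hs, map_add, hs, hs])
      commutes' := fun r => by
        have h2 : f (algebraMap k B r) = algebraMap k C r := AlgHomClass.commutes f r
        have h3 : q (algebraMap k B r) = algebraMap k B' r := AlgHomClass.commutes q r
        rw [← h2]; exact h1 _ _ (by rw [hs, h3]) }
  have hg₀ : ∀ b, g₀ (q b) = f b := fun b => h1 _ _ (hs _)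
  have hcomp : g₀.toLinearMap ∘ₗ q.toCoalgHom.toLinearMap = f.toCoalgHom.toLinearMap :=
    LinearMap.ext fun b => hg₀ b
  refine ⟨BialgHom.ofAlgHom g₀ ?_ ?_, hg₀⟩
  · refine AlgHom.ext fun x => ?_
    obtain ⟨b, rfl⟩ := hq x
    show Coalgebra.counit (R := k) (g₀ (q b)) = Coalgebra.counit (R := k) (q b)
    rw [hg₀, Pool.Agent.Helper90.UN.map_counit, Pool.Agent.Helper90.UN.map_counit]
  · refine AlgHom.ext fun x => ?_
    obtain ⟨b, rfl⟩ := hq x
    show TensorProduct.map g₀.toLinearMap g₀.toLinearMap (Coalgebra.comul (R := k) (q b)) =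
      Coalgebra.comul (R := k) (g₀ (q b))
    rw [hg₀, Pool.Agent.Helper90.UN.map_comul q b, Pool.Agent.Helper90.UN.map_comul f b,
      ← LinearMap.comp_apply, ← TensorProduct.map_comp, hcomp]

variable {π : B →ₐc[k] C} {X : B} (G : Co π X)

include G

/-- `X^j b ∈ B X^j` -/
theorem Co.swap (j : ℕ) (b : B) : ∃ b' : B, X ^ j * b = b' * X ^ j := by
  have h1 : X ^ j ∈ Ix k X j := ⟨1, one_mul (X ^ j)⟩
  obtain ⟨b', hb'⟩ := Ix_right π X G.ker j h1 b
  exact ⟨b', hb'.symm⟩

/-- `Δ(X) = 1 ⊗ X + w (X ⊗ 1)` -/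
theorem Co.comulX : ∃ w : B ⊗[k] B, Coalgebra.comul (R := k) X =
    (1 : B) ⊗ₜ[k] X + w * (X ⊗ₜ[k] (1 : B)) := by
  have hex : Function.Exact (LinearMap.mulRight k X) ((π : B →ₐ[k] C) : B →ₗ[k] C) := by
    intro b
    constructor
    · intro h
      obtain ⟨b', hb'⟩ := (G.ker b).1 h
      exact ⟨b', hb'.symm⟩
    · rintro ⟨b', rfl⟩
      exact (G.ker _).2 ⟨b', rfl⟩
  have hex2 := rTensor_exact B hex G.surj
  have h1 : LinearMap.rTensor B ((π : B →ₐ[k] C) : B →ₗ[k] C)
      (Coalgebra.comul (R := k) X - (1 : B) ⊗ₜ[k] X) = 0 := by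
    have h2 : LinearMap.rTensor B ((π : B →ₐ[k] C) : B →ₗ[k] C) (Coalgebra.comul (R := k) X) =
      (1 : C) ⊗ₜ[k] X := G.lco
    rw [map_sub, h2, LinearMap.rTensor_tmul]
    have h3 : ((π : B →ₐ[k] C) : B →ₗ[k] C) 1 = 1 := map_one (π : B →ₐ[k] C)
    rw [h3, sub_self]
  obtain ⟨w, hw⟩ := (hex2 _).1 h1
  have h4 : ∀ w : B ⊗[k] B, LinearMap.rTensor B (LinearMap.mulRight k X) w =
      w * (X ⊗ₜ[k] (1 : B)) := by
    intro w
    induction w using TensorProduct.induction_on with
    | zero => simp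
    | add s t hs ht => simp only [map_add, add_mul, hs, ht]
    | tmul a c => simp
  refine ⟨w, ?_⟩
  rw [← h4, hw]
  abel

/-- the left ideal of `B ⊗ B` generated by the `X^i ⊗ X^j`, `i + j = n` -/
def FF (k : Type u) [Field k] {B : Type u} [Ring B] [HopfAlgebra k B] (X : B) (n : ℕ) :
    Ideal (B ⊗[k] B) :=
  Ideal.span {t | ∃ i j : ℕ, i + j = n ∧ t = (X ^ i) ⊗ₜ[k] (X ^ j)}

theorem Co.FF_mul {n : ℕ} {t : B ⊗[k] B} (ht : t ∈ FF k X n) :
    t * Coalgebra.comul (R := k) X ∈ FF k X (n + 1) := by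
  obtain ⟨w, hw⟩ := G.comulX
  unfold FF at ht
  induction ht using Submodule.span_induction with
  | mem t ht =>
    obtain ⟨i, j, hij, rfl⟩ := ht
    rw [hw, mul_add]
    refine add_mem ?_ ?_
    · rw [Algebra.TensorProduct.tmul_mul_tmul, mul_one, ← pow_succ]
      exact Ideal.subset_span ⟨i, j + 1, by omega, rfl⟩
    · rw [← mul_assoc]
      clear hw
      induction w using TensorProduct.induction_on with
      | zero => rw [mul_zero, zero_mul]; exact zero_mem _
      | add s t hs ht =>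
        rw [mul_add, add_mul]
        exact add_mem hs ht
      | tmul a c =>
        obtain ⟨a', ha'⟩ := G.swap i a
        obtain ⟨c', hc'⟩ := G.swap j c
        rw [Algebra.TensorProduct.tmul_mul_tmul, ha', hc', Algebra.TensorProduct.tmul_mul_tmul,
          mul_one, mul_assoc, ← pow_succ]
        have h1 : (a' * X ^ (i + 1)) ⊗ₜ[k] (c' * X ^ j) =
            (a' ⊗ₜ[k] c') * ((X ^ (i + 1)) ⊗ₜ[k] (X ^ j)) := by
          rw [Algebra.TensorProduct.tmul_mul_tmul]
        rw [h1]
        exact Ideal.mul_mem_left _ _ (Ideal.subset_span ⟨i + 1, j, by omega, rfl⟩)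
  | zero => rw [zero_mul]; exact zero_mem _
  | add s t _ _ hs ht => rw [add_mul]; exact add_mem hs ht
  | smul c t _ ht => rw [smul_eq_mul, mul_assoc]; exact Ideal.mul_mem_left _ _ ht

theorem Co.comul_pow_mem (n : ℕ) : Coalgebra.comul (R := k) (X ^ n) ∈ FF k X n := by
  induction n with
  | zero =>
    rw [pow_zero, Bialgebra.comul_one, Algebra.TensorProduct.one_def]
    exact Ideal.subset_span ⟨0, 0, rfl, by rw [pow_zero]⟩
  | succ n ih =>
    rw [pow_succ, Bialgebra.comul_mul]
    exact G.FF_mul ih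

variable [Module.Finite k B]

omit G in
/-- the powers stabilise -/
theorem exists_stab (k : Type u) [Field k] {B : Type u} [Ring B] [HopfAlgebra k B]
    [Module.Finite k B] (X : B) : ∃ m : ℕ, 0 < m ∧ ∃ c : B, X ^ m = c * X ^ (2 * m) := by
  have h1 : ∃ m : ℕ, 0 < m ∧ Ix k X (m + 1) = Ix k X m := by
    by_contra hcon
    have hlt : ∀ m, 0 < m → Module.finrank k (Ix k X (m + 1)) < Module.finrank k (Ix k X m) := by
      intro m hm
      refine Submodule.finrank_lt_finrank_of_lt (lt_of_le_of_ne (Ix_anti X (Nat.le_succ m)) ?_)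
      intro he
      exact hcon ⟨m, hm, he⟩
    have h2 : ∀ n, Module.finrank k (Ix k X (n + 1)) + n ≤ Module.finrank k (Ix k X 1) := by
      intro n
      induction n with
      | zero => exact le_of_eq (by rw [add_zero])
      | succ n ih =>
        have := hlt (n + 1) (Nat.succ_pos n)
        omega
    have h3 := h2 (Module.finrank k (Ix k X 1) + 1)
    omega
  obtain ⟨m, hm, he⟩ := h1
  refine ⟨m, hm, ?_⟩
  have h2 : ∀ i, ∃ c : B, X ^ m = c * X ^ (m + i) := by
    intro i
    induction i with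
    | zero => exact ⟨1, by rw [add_zero, one_mul]⟩
    | succ i ih =>
      obtain ⟨c, hc⟩ := ih
      have h3 : X ^ m ∈ Ix k X (m + 1) := by
        rw [he]
        exact ⟨1, one_mul (X ^ m)⟩
      obtain ⟨d, hd⟩ := h3
      have hd' : d * X ^ (m + 1) = X ^ m := hd
      refine ⟨c * d, ?_⟩
      have e : m + (i + 1) = (m + 1) + i := by omega
      rw [e, pow_add X (m + 1) i, ← mul_assoc, mul_assoc c d, hd', mul_assoc, ← pow_add]
      exact hc
  obtain ⟨c, hc⟩ := h2 m
  exact ⟨c, by rw [two_mul]; exact hc⟩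

/-- The quotient of `B` in which `X` is nilpotent. -/
theorem Co.exists_block : ∃ (m : ℕ) (B' : Type u) (_ : Ring B') (_ : HopfAlgebra k B')
    (q : B →ₐc[k] B'), 0 < m ∧ (∃ c : B, X ^ m = c * X ^ (2 * m)) ∧ Function.Surjective q ∧
      ∀ b, q b = 0 ↔ ∃ b', b = b' * X ^ m := by
  obtain ⟨m, hm, c, hc⟩ := exists_stab k X
  have hmem : ∀ b, b ∈ Ideal.span {X ^ m} ↔ ∃ b', b = b' * X ^ m := by
    intro b
    rw [Ideal.mem_span_singleton']
    exact ⟨fun ⟨a, ha⟩ => ⟨a, ha.symm⟩, fun ⟨a, ha⟩ => ⟨a, ha.symm⟩⟩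
  set J : Ideal B := Ideal.span {X ^ m} with hJ
  have hts : J.IsTwoSided := by
    refine ⟨fun {x} b hx => ?_⟩
    obtain ⟨b', rfl⟩ := (hmem x).1 hx
    obtain ⟨b'', hb''⟩ := G.swap m b
    exact (hmem _).2 ⟨b' * b'', by rw [mul_assoc, hb'', mul_assoc]⟩
  have hεX : Coalgebra.counit (R := k) X = 0 := by
    rw [← Pool.Agent.Helper90.UN.map_counit π, G.piX, map_zero]
  have hq0 : ∀ i, m ≤ i → Ideal.Quotient.mkₐ k J (X ^ i) = 0 := by
    intro i hi
    have h1 : X ^ i ∈ J := (hmem _).2 ⟨X ^ (i - m), by rw [← pow_add, Nat.sub_add_cancel hi]⟩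
    exact Ideal.Quotient.eq_zero_iff_mem.mpr h1
  have hco : (J.restrictScalars k).IsCoideal := by
    refine ⟨fun x hx => ?_, fun x hx => ?_⟩
    · obtain ⟨b', rfl⟩ := (hmem x).1 hx
      rw [Bialgebra.counit_mul, Bialgebra.counit_pow, hεX, zero_pow hm.ne', mul_zero]
    · obtain ⟨b', rfl⟩ := (hmem x).1 hx
      show (Algebra.TensorProduct.map (Ideal.Quotient.mkₐ k J) (Ideal.Quotient.mkₐ k J))
        (Coalgebra.comul (R := k) (b' * X ^ m)) = 0
      rw [hc, ← mul_assoc, Bialgebra.comul_mul, map_mul]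
      have h1 : ∀ t ∈ FF k X (2 * m), (Algebra.TensorProduct.map (Ideal.Quotient.mkₐ k J)
          (Ideal.Quotient.mkₐ k J)) t = 0 := by
        intro t ht
        unfold FF at ht
        induction ht using Submodule.span_induction with
        | mem t ht =>
          obtain ⟨i, j, hij, rfl⟩ := ht
          rw [Algebra.TensorProduct.map_tmul]
          rcases le_or_gt m i with h | h
          · rw [hq0 i h, TensorProduct.zero_tmul]
          · rw [hq0 j (by omega), TensorProduct.tmul_zero]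
        | zero => rw [map_zero]
        | add s t _ _ hs ht => rw [map_add, hs, ht, add_zero]
        | smul c t _ ht => rw [smul_eq_mul, map_mul, ht, mul_zero]
      rw [h1 _ (G.comul_pow_mem (2 * m)), mul_zero]
  have hho : J.IsHopfIdeal k := by
    refine { hco with antipode_mem := fun x hx => ?_ }
    obtain ⟨b', rfl⟩ := (hmem x).1 hx
    have h1 : π (HopfAlgebra.antipode k X) = 0 := by
      rw [Pool.Agent.Helper90.UN.map_antipode, G.piX, map_zero]
    have h2 : ∀ n, HopfAlgebra.antipode k (X ^ n) = (HopfAlgebra.antipode k X) ^ n := by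
      intro n
      induction n with
      | zero => rw [pow_zero, pow_zero, HopfAlgebra.antipode_one]
      | succ n ih => rw [pow_succ, HopfAlgebra.antipode_mul_antidistrib, ih, ← pow_succ']
    obtain ⟨d, hd⟩ := pow_ker_mem π X G.ker h1 m
    have hd' : d * X ^ m = (HopfAlgebra.antipode k X) ^ m := hd
    rw [HopfAlgebra.antipode_mul_antidistrib, h2, ← hd']
    exact Ideal.mul_mem_right _ _ ((hmem _).2 ⟨d, rfl⟩)
  refine ⟨m, B ⧸ J, inferInstance, inferInstance, Bialgebra.Quotient.mkBialgHom J, hm, ⟨c, hc⟩,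
    Ideal.Quotient.mk_surjective, fun b => ?_⟩
  rw [← hmem]
  exact Ideal.Quotient.eq_zero_iff_mem

omit G in
/-- `B / B X^m` is a projective `B`-module. -/
theorem proj_block {B' : Type u} [Ring B'] [HopfAlgebra k B'] (q : B →ₐc[k] B')
    (hq : Function.Surjective q) {m : ℕ} {c : B} (hc : X ^ m = c * X ^ (2 * m))
    (hk : ∀ b, q b = 0 ↔ ∃ b', b = b' * X ^ m) :
    Module.Projective B ((res (q : B →ₐ[k] B')).obj (ModuleCat.of B' B')) := by
  -- the idempotent
  let J := Ix k X m
  have hJm : ∀ y ∈ J, y * X ^ m ∈ J := fun y _ => ⟨y, rfl⟩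
  let r : J →ₗ[k] J := (LinearMap.mulRight k (X ^ m)).restrict hJm
  have hr : Function.Surjective r := by
    rintro ⟨y, b, hb⟩
    have hb' : b * X ^ m = y := hb
    refine ⟨⟨b * c * X ^ m, ⟨b * c, rfl⟩⟩, Subtype.ext ?_⟩
    change b * c * X ^ m * X ^ m = y
    rw [mul_assoc, ← pow_add, ← two_mul, mul_assoc, ← hc, hb']
  have hri : Function.Injective r := LinearMap.injective_iff_surjective.2 hr
  obtain ⟨⟨e, he⟩, heX⟩ := hr ⟨X ^ m, ⟨1, one_mul (X ^ m)⟩⟩
  have heX' : e * X ^ m = X ^ m := congrArg Subtype.val heX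
  have hje : ∀ y ∈ J, y * e = y := by
    intro y hy
    have hye : y * e ∈ J := by
      obtain ⟨d, hd⟩ := he
      have hd' : d * X ^ m = e := hd
      exact ⟨y * d, by rw [← hd']; exact mul_assoc y d (X ^ m)⟩
    have h1 : r ⟨y * e, hye⟩ = r ⟨y, hy⟩ := by
      apply Subtype.ext
      change y * e * X ^ m = y * X ^ m
      rw [mul_assoc, heX']
    exact congrArg Subtype.val (hri h1)
  have hqe : q e = 0 := by
    obtain ⟨d, hd⟩ := he
    exact (hk e).2 ⟨d, hd.symm⟩
  let M := (res (q : B →ₐ[k] B')).obj (ModuleCat.of B' B')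
  let s : B →ₗ[B] M :=
    { toFun := fun b => (show M from q b)
      map_add' := fun x y => map_add q x y
      map_smul' := fun x y => map_mul q x y }
  have hs : Function.Surjective s := hq
  let f : B →ₗ[B] B := LinearMap.id - LinearMap.toSpanSingleton B B e
  have hf : ∀ b, f b = b - b * e := fun b => rfl
  have hker : LinearMap.ker s ≤ LinearMap.ker f := by
    intro b hb
    have h1 : q b = 0 := hb
    obtain ⟨d, rfl⟩ := (hk b).1 h1
    have h2 := hje (d * X ^ m) ⟨d, rfl⟩
    rw [LinearMap.mem_ker, hf, h2, sub_self]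
  let i : M →ₗ[B] B := ((LinearMap.ker s).liftQ f hker) ∘ₗ
    (s.quotKerEquivOfSurjective hs).symm.toLinearMap
  have hi : ∀ b, i (s b) = b - b * e := by
    intro b
    have h1 : (s.quotKerEquivOfSurjective hs).symm (s b) = (LinearMap.ker s).mkQ b := by
      rw [LinearEquiv.symm_apply_eq]
      rfl
    change (LinearMap.ker s).liftQ f hker ((s.quotKerEquivOfSurjective hs).symm (s b)) = _
    rw [h1]
    exact hf b
  refine Module.Projective.of_split i s (LinearMap.ext fun y => ?_)
  obtain ⟨b, rfl⟩ := hs y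
  rw [LinearMap.comp_apply, hi, map_sub]
  have h1 : s (b * e) = 0 := by
    change q (b * e) = 0
    rw [map_mul, hqe, mul_zero]
  rw [h1, sub_zero]
  rfl

/-- THEOREM P. Principal kernels generated by coinvariant elements. -/
theorem Co.fge_all [Module.Finite k C]
    (h : ∃ χ : B →ₐ[k] k, Twist X χ ∧ PowCentral χ) (hC : FGE k C) : FGE k B := by
  obtain ⟨m, B', i1, i2, q, hm, ⟨c, hc⟩, hq, hqk⟩ := G.exists_block
  have hf : Module.Finite k B' := Module.Finite.of_surjective (q : B →ₗ[k] B') hq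
  refine fge_sub (q : B →ₐ[k] B') (aug_of_bialg q) (proj_block q hq hc hqk) ?_
  have hπ0 : ∀ b, q b = 0 → π b = 0 := by
    intro b hb
    obtain ⟨b', rfl⟩ := (hqk b).1 hb
    obtain ⟨n, rfl⟩ : ∃ n, m = n + 1 := ⟨m - 1, by omega⟩
    exact (G.ker _).2 ⟨b' * X ^ n, by rw [pow_succ, mul_assoc]⟩
  obtain ⟨π', hπ'⟩ := exists_desc' q hq π hπ0
  have hqX : ∀ b, π' (q b) = π b := hπ'
  have G' : Co π' (q X) := by
    have hcomp1 : ∀ t : B ⊗[k] B, Algebra.TensorProduct.map (π' : B' →ₐ[k] C) (AlgHom.id k B')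
        (TensorProduct.map q.toCoalgHom.toLinearMap q.toCoalgHom.toLinearMap t) =
        LinearMap.lTensor C (q.toCoalgHom.toLinearMap)
          (Algebra.TensorProduct.map (π : B →ₐ[k] C) (AlgHom.id k B) t) := by
      intro t
      induction t using TensorProduct.induction_on with
      | zero => simp
      | add s t hs ht => simp only [map_add, hs, ht]
      | tmul a b =>
        rw [TensorProduct.map_tmul, Algebra.TensorProduct.map_tmul,
          Algebra.TensorProduct.map_tmul, LinearMap.lTensor_tmul]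
        exact congrArg (fun z => z ⊗ₜ[k] (q b)) (hqX a)
    have hcomp2 : ∀ t : B ⊗[k] B, Algebra.TensorProduct.map (AlgHom.id k B') (π' : B' →ₐ[k] C)
        (TensorProduct.map q.toCoalgHom.toLinearMap q.toCoalgHom.toLinearMap t) =
        LinearMap.rTensor C (q.toCoalgHom.toLinearMap)
          (Algebra.TensorProduct.map (AlgHom.id k B) (π : B →ₐ[k] C) t) := by
      intro t
      induction t using TensorProduct.induction_on with
      | zero => simp
      | add s t hs ht => simp only [map_add, hs, ht]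
      | tmul a b =>
        rw [TensorProduct.map_tmul, Algebra.TensorProduct.map_tmul,
          Algebra.TensorProduct.map_tmul, LinearMap.rTensor_tmul]
        exact congrArg (fun z => (q a) ⊗ₜ[k] z) (hqX b)
    refine ⟨fun y => ?_, fun y => ?_, ?_, ?_⟩
    · obtain ⟨b, rfl⟩ := G.surj y
      exact ⟨q b, hqX b⟩
    · obtain ⟨b, rfl⟩ := hq y
      rw [hqX]
      constructor
      · intro hb
        obtain ⟨b', rfl⟩ := (G.ker b).1 hb
        exact ⟨q b', map_mul q b' X⟩
      · rintro ⟨y', hy'⟩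
        obtain ⟨b', rfl⟩ := hq y'
        rw [← hqX, hy', map_mul, hqX, hqX, G.piX, mul_zero]
    · rw [Pool.Agent.Helper90.UN.map_comul q X, hcomp1, G.lco, LinearMap.lTensor_tmul]
      rfl
    · rw [Pool.Agent.Helper90.UN.map_comul q X, hcomp2, G.rco, LinearMap.rTensor_tmul]
      rfl
  have hnil : IsNilpotent (q X) := ⟨m, by
    rw [← map_pow]
    exact (hqk _).2 ⟨1, (one_mul _).symm⟩⟩
  by_cases hX0 : q X = 0
  · have hinj : Function.Injective π' := by
      rw [injective_iff_map_eq_zero]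
      intro b hb
      obtain ⟨b', hb'⟩ := (G'.ker b).1 hb
      rw [hb', hX0, mul_zero]
    exact fge_hopfSub π' hinj hC
  obtain ⟨χ, hχ, n, hn, hcen⟩ := h
  obtain ⟨χ', hχ'⟩ := G'.exists_chi hnil hX0
  -- `χ = χ' q`
  have hrw : ∀ (ψ : B' →ₐ[k] k) (b : B), rwn ψ (q b) = q (rwn (ψ.comp (q : B →ₐ[k] B')) b) := by
    intro ψ b
    have h1 : ∀ t : B ⊗[k] B, TensorProduct.rid k B' (ψ.toLinearMap.lTensor B'
        (TensorProduct.map q.toCoalgHom.toLinearMap q.toCoalgHom.toLinearMap t)) =
        q (TensorProduct.rid k B ((ψ.comp (q : B →ₐ[k] B')).toLinearMap.lTensor B t)) := by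
      intro t
      induction t using TensorProduct.induction_on with
      | zero => simp
      | add s t hs ht => simp only [map_add, hs, ht]
      | tmul a b =>
        rw [TensorProduct.map_tmul, LinearMap.lTensor_tmul, TensorProduct.rid_tmul,
          LinearMap.lTensor_tmul, TensorProduct.rid_tmul, map_smul]
        rfl
    rw [rwn_apply, Rg_apply, Pool.Agent.Helper90.UN.map_comul q b, h1]
    rfl
  have hχχ : χ = χ'.comp (q : B →ₐ[k] B') := by
    refine AlgHom.ext fun b => ?_
    obtain ⟨d, hd⟩ := hχ b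
    obtain ⟨y, hy⟩ := hχ' (q b)
    have h2 : (q (rwn χ b) - rwn χ' (q b)) * q X ^ 1 ∈ Ix k (q X) (1 + 1) := by
      refine ⟨y - q d, ?_⟩
      have h3 : q X * q b - q (rwn χ b) * q X = q d * q X ^ 2 := by
        rw [← map_mul, ← map_mul, ← map_sub, hd, map_mul, map_pow]
      rw [LinearMap.mulRight_apply, one_add_one_eq_two, pow_one, sub_mul, sub_mul, ← hy, ← h3]
      abel
    have h3 := free_gen π' G'.surj (q X) G'.ker hnil (by rwa [pow_one]) h2
    have h4 := congrArg (Coalgebra.counit (R := k) (A := C)) h3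
    rw [Pool.Agent.Helper90.UN.map_counit π', map_zero, map_sub, counit_rwn,
      Pool.Agent.Helper90.UN.map_counit q, counit_rwn, sub_eq_zero] at h4
    exact h4
  refine G'.fge hnil ⟨χ', hχ', n, hn, fun f => ?_⟩ hC
  have h5 : toConv (χ'.toLinearMap ∘ₗ q.toCoalgHom.toLinearMap) = toConv χ.toLinearMap := by
    rw [hχχ]
    rfl
  have hpull : ∀ a b : WithConv (B' →ₗ[k] k), toConv ((a * b).ofConv ∘ₗ
      q.toCoalgHom.toLinearMap) = toConv (a.ofConv ∘ₗ q.toCoalgHom.toLinearMap) *
        toConv (b.ofConv ∘ₗ q.toCoalgHom.toLinearMap) := by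
    intro a b
    rw [LinearMap.convMul_comp_coalgHom_distrib]
  have hpow : ∀ n : ℕ, toConv ((toConv χ'.toLinearMap ^ n).ofConv ∘ₗ
      q.toCoalgHom.toLinearMap) = toConv χ.toLinearMap ^ n := by
    intro n
    induction n with
    | zero =>
      rw [pow_zero, pow_zero]
      apply WithConv.ext
      refine LinearMap.ext fun b => ?_
      change algebraMap k k (Coalgebra.counit (R := k) (q b)) =
        algebraMap k k (Coalgebra.counit (R := k) b)
      rw [Pool.Agent.Helper90.UN.map_counit q]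
    | succ n ih => rw [pow_succ, hpull, ih, pow_succ]; exact congrArg _ h5
  have h6 := hcen (f ∘ₗ q.toCoalgHom.toLinearMap)
  have h7 : toConv ((toConv χ'.toLinearMap ^ n * toConv f).ofConv ∘ₗ
      q.toCoalgHom.toLinearMap) = toConv ((toConv f * toConv χ'.toLinearMap ^ n).ofConv ∘ₗ
      q.toCoalgHom.toLinearMap) := by
    rw [hpull, hpull, hpow]
    exact h6
  apply WithConv.ext
  refine LinearMap.ext fun y => ?_
  obtain ⟨b, rfl⟩ := hq y
  exact LinearMap.congr_fun (congrArg ofConv h7) b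

end

end Pool.Agent.Helper90.R2
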