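import Pool.Agent.Helper90.R2.Step
import Pool.Agent.Helper77.R1.Gen2

/-!
# The character of a principal nilpotent kernel
-/

set_option linter.unusedSectionVars false
set_option autoImplicit false

open scoped TensorProduct
open WithConv
open Pool.Agent.Helper59.FG Pool.Agent.Helper90.UN
open Pool.Agent.Helper90.FC hiding rho
open Pool.Agent.Helper56.SS hiding rho
open Pool.Agent.Helper90.R1 Pool.Agent.Helper77.R1

namespace Pool.Agent.Helper90.R2

universe u

section

variable {k : Type u} [Field k] {B : Type u} [Ring B] [HopfAlgebra k B]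

/-- `b ↦ b₁ χ(b₂)` -/
noncomputable def rwn (χ : B →ₐ[k] k) : B →ₐ[k] B :=
  (Algebra.TensorProduct.rid k k B).toAlgHom.comp
    ((Algebra.TensorProduct.map (AlgHom.id k B) χ).comp (Bialgebra.comulAlgHom k B))

/-- `b ↦ χ(b₁) b₂` -/
noncomputable def lwn (χ : B →ₐ[k] k) : B →ₐ[k] B :=
  (Algebra.TensorProduct.lid k B).toAlgHom.comp
    ((Algebra.TensorProduct.map χ (AlgHom.id k B)).comp (Bialgebra.comulAlgHom k B))

theorem rwn_lin (χ : B →ₐ[k] k) : (rwn χ).toLinearMap = Rg χ.toLinearMap := by
  have h : ∀ t : B ⊗[k] B, (Algebra.TensorProduct.rid k k B)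
      (Algebra.TensorProduct.map (AlgHom.id k B) χ t) =
        TensorProduct.rid k B (χ.toLinearMap.lTensor B t) := by
    intro t
    induction t using TensorProduct.induction_on with
    | zero => simp
    | add s t hs ht => simp only [map_add, hs, ht]
    | tmul a c => simp
  exact LinearMap.ext fun b => h (Coalgebra.comul (R := k) b)

theorem lwn_lin (χ : B →ₐ[k] k) : (lwn χ).toLinearMap = Lf χ.toLinearMap := by
  have h : ∀ t : B ⊗[k] B, (Algebra.TensorProduct.lid k B)
      (Algebra.TensorProduct.map χ (AlgHom.id k B) t) =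
        TensorProduct.lid k B (χ.toLinearMap.rTensor B t) := by
    intro t
    induction t using TensorProduct.induction_on with
    | zero => simp
    | add s t hs ht => simp only [map_add, hs, ht]
    | tmul a c => simp
  exact LinearMap.ext fun b => h (Coalgebra.comul (R := k) b)

theorem rwn_apply (χ : B →ₐ[k] k) (b : B) : rwn χ b = Rg χ.toLinearMap b :=
  LinearMap.congr_fun (rwn_lin χ) b

theorem lwn_apply (χ : B →ₐ[k] k) (b : B) : lwn χ b = Lf χ.toLinearMap b :=
  LinearMap.congr_fun (lwn_lin χ) b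

theorem conv_Rg (f g : B →ₗ[k] k) : f ∘ₗ Rg g = (toConv f * toConv g).ofConv := by
  have h : ∀ t : B ⊗[k] B, f (TensorProduct.rid k B (g.lTensor B t)) =
      LinearMap.mul' k k (TensorProduct.map f g t) := by
    intro t
    induction t using TensorProduct.induction_on with
    | zero => simp
    | add s t hs ht => simp only [map_add, hs, ht]
    | tmul a c => simp [mul_comm]
  exact LinearMap.ext fun b => h (Coalgebra.comul (R := k) b)

theorem conv_Lf (f g : B →ₗ[k] k) : f ∘ₗ Lf g = (toConv g * toConv f).ofConv := by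
  have h : ∀ t : B ⊗[k] B, f (TensorProduct.lid k B (g.rTensor B t)) =
      LinearMap.mul' k k (TensorProduct.map g f t) := by
    intro t
    induction t using TensorProduct.induction_on with
    | zero => simp
    | add s t hs ht => simp only [map_add, hs, ht]
    | tmul a c => simp
  exact LinearMap.ext fun b => h (Coalgebra.comul (R := k) b)

theorem rwn_lwn (χ : B →ₐ[k] k) : rwn χ * lwn χ = lwn χ * rwn χ := by
  refine AlgHom.ext fun b => ?_
  change rwn χ (lwn χ b) = lwn χ (rwn χ b)
  rw [rwn_apply, lwn_apply, lwn_apply, rwn_apply, Lf_Rg]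

theorem counit_rwn (χ : B →ₐ[k] k) (b : B) : Coalgebra.counit (R := k) (rwn χ b) = χ b := by
  rw [rwn_apply]
  have h := LinearMap.congr_fun (conv_Rg (Coalgebra.counit (R := k) (A := B)) χ.toLinearMap) b
  rw [LinearMap.comp_apply] at h
  rw [h]
  have h2 : toConv (Coalgebra.counit (R := k) (A := B)) = (1 : WithConv (B →ₗ[k] k)) := by
    apply WithConv.ext
    exact LinearMap.ext fun x => rfl
  rw [h2, one_mul]
  rfl

theorem rwn_pow {χ : B →ₐ[k] k} {n : ℕ} (h : toConv χ.toLinearMap ^ n = 1) :
    rwn χ ^ n = 1 := by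
  have key : ∀ (m : ℕ) (f : B →ₗ[k] k), f ∘ₗ (rwn χ ^ m).toLinearMap =
      (toConv f * toConv χ.toLinearMap ^ m).ofConv := by
    intro m
    induction m with
    | zero =>
      intro f
      rw [pow_zero, pow_zero, mul_one]
      rfl
    | succ m ih =>
      intro f
      have h1 : (rwn χ ^ (m + 1)).toLinearMap =
          (rwn χ).toLinearMap ∘ₗ (rwn χ ^ m).toLinearMap := by
        rw [pow_succ']
        rfl
      rw [h1, ← LinearMap.comp_assoc, rwn_lin, conv_Rg, ih, pow_succ', mul_assoc]
  refine AlgHom.ext fun b => sep (k := k) _ _ fun f => ?_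
  have h1 := LinearMap.congr_fun (key n f) b
  rw [h, mul_one] at h1
  exact h1

theorem lwn_pow {χ : B →ₐ[k] k} {n : ℕ} (h : toConv χ.toLinearMap ^ n = 1) :
    lwn χ ^ n = 1 := by
  have key : ∀ (m : ℕ) (f : B →ₗ[k] k), f ∘ₗ (lwn χ ^ m).toLinearMap =
      (toConv χ.toLinearMap ^ m * toConv f).ofConv := by
    intro m
    induction m with
    | zero =>
      intro f
      rw [pow_zero, pow_zero, one_mul]
      rfl
    | succ m ih =>
      intro f
      have h1 : (lwn χ ^ (m + 1)).toLinearMap =
          (lwn χ).toLinearMap ∘ₗ (lwn χ ^ m).toLinearMap := by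
        rw [pow_succ']
        rfl
      rw [h1, ← LinearMap.comp_assoc, lwn_lin, conv_Lf, ih, pow_succ, mul_assoc]
  refine AlgHom.ext fun b => sep (k := k) _ _ fun f => ?_
  have h1 := LinearMap.congr_fun (key n f) b
  rw [h, one_mul] at h1
  exact h1

/-- The character `χ` is central in the dual of `B`. -/
def CentralChar (χ : B →ₐ[k] k) : Prop :=
  ∀ f : B →ₗ[k] k, toConv χ.toLinearMap * toConv f = toConv f * toConv χ.toLinearMap

theorem rwn_eq_lwn {χ : B →ₐ[k] k} (h : CentralChar χ) : rwn χ = lwn χ := by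
  refine AlgHom.ext fun b => sep (k := k) _ _ fun f => ?_
  have h1 := LinearMap.congr_fun (conv_Rg f χ.toLinearMap) b
  have h2 := LinearMap.congr_fun (conv_Lf f χ.toLinearMap) b
  rw [LinearMap.comp_apply] at h1 h2
  rw [rwn_apply, lwn_apply, h1, h2, h f]

theorem wind_of_eq {χ : B →ₐ[k] k} (h : rwn χ = lwn χ) : Wind (rwn χ) where
  l b := by
    rw [rwn_apply, comul_Rg, rwn_lin]
  r b := by
    rw [h, lwn_apply, comul_Lf, lwn_lin]

end

section

variable {k : Type u} [Field k] {B C : Type u} [Ring B] [Ring C] [HopfAlgebra k B]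
variable [HopfAlgebra k C] [Module.Finite k B] [Module.Finite k C]

/-- `X b ∈ b₁ χ(b₂) X + B X²` for all `b`. -/
def Twist (X : B) (χ : B →ₐ[k] k) : Prop := ∀ b : B, ∃ b' : B, X * b - rwn χ b * X = b' * X ^ 2

variable (π : B →ₐc[k] C) (hs : Function.Surjective π) (X : B)
  (hk : ∀ b : B, π b = 0 ↔ ∃ b' : B, b = b' * X) (hX : IsNilpotent X)

omit [Module.Finite k B] [Module.Finite k C] in
private theorem zero_CI (X : B) (t : C ⊗[k] B) : t ∈ CI k C X 0 := by
  refine ⟨t, ?_⟩
  rw [LinearMap.mulRight_apply, pow_zero, ← Algebra.TensorProduct.one_def, mul_one]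

omit [Module.Finite k B] [Module.Finite k C] in
private theorem lift_tw (X : B) (φ : B → B) (hφ : ∀ b, X * b = φ b * X) (f : B →ₗ[k] C)
    (hf : ∀ b, f b = π (φ b)) (t : C ⊗[k] B) :
    ∃ t' : C ⊗[k] B, ((1 : C) ⊗ₜ[k] X) * t = t' * ((1 : C) ⊗ₜ[k] X) ∧
      Algebra.TensorProduct.map (AlgHom.id k C) (π : B →ₐ[k] C) t' =
        LinearMap.lTensor C f t := by
  induction t using TensorProduct.induction_on with
  | zero => exact ⟨0, by rw [mul_zero, zero_mul], by rw [map_zero, map_zero]⟩
  | tmul c b =>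
    refine ⟨c ⊗ₜ[k] φ b, ?_, ?_⟩
    · rw [Algebra.TensorProduct.tmul_mul_tmul, Algebra.TensorProduct.tmul_mul_tmul, one_mul,
        mul_one, hφ b]
    · rw [Algebra.TensorProduct.map_tmul, LinearMap.lTensor_tmul, hf b]
      rfl
  | add s t hs ht =>
    obtain ⟨s', h1, h2⟩ := hs
    obtain ⟨t', h3, h4⟩ := ht
    exact ⟨s' + t', by rw [mul_add, add_mul, h1, h3], by rw [map_add, map_add, h2, h4]⟩

omit [Module.Finite k B] [Module.Finite k C] in
private theorem pi_rho (b : B) :
    Algebra.TensorProduct.map (AlgHom.id k C) (π : B →ₐ[k] C) (rho π b) =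
      Coalgebra.comul (R := k) (π b) := by
  have h1 := CoalgHomClass.map_comp_comul_apply π b
  rw [← h1]
  unfold rho
  rw [AlgHom.comp_apply]
  change Algebra.TensorProduct.map (AlgHom.id k C) (π : B →ₐ[k] C)
    (Algebra.TensorProduct.map (π : B →ₐ[k] C) (AlgHom.id k B) (Coalgebra.comul (R := k) b)) = _
  generalize Coalgebra.comul (R := k) b = t
  induction t using TensorProduct.induction_on with
  | zero => simp only [map_zero]
  | tmul c d => rfl
  | add s t hs ht => rw [map_add, map_add, map_add, hs, ht]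

include hX hs hk in
/-- The character of a normalised generator. -/
theorem exists_twist (h : X ≠ 0) (hX2 : rho π X - (1 : C) ⊗ₜ[k] X ∈ CI k C X 2) :
    ∃ χ : B →ₐ[k] k, Twist X χ := by
  have hX0 : π X = 0 := (hk X).2 ⟨1, (one_mul X).symm⟩
  have hex : ∀ b : B, ∃ a : B, X * b = a * X := fun b =>
    (hk (X * b)).1 (by rw [map_mul, hX0, zero_mul])
  choose φ hφ using hex
  have hp1 : X ^ 1 ≠ 0 := by rwa [pow_one]
  have huniq : ∀ a a' : B, a * X = a' * X → π a = π a' := by
    intro a a' haa
    have h1 : (a - a') * X ^ 1 ∈ Ix k X (1 + 1) := by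
      rw [pow_one, sub_mul, haa, sub_self]
      exact Submodule.zero_mem _
    have h2 := free_gen π hs X hk hX hp1 h1
    rwa [map_sub, sub_eq_zero] at h2
  let f₀ : B →ₗ[k] C :=
    { toFun := fun b => π (φ b)
      map_add' := fun b b' => by
        rw [← map_add]
        exact huniq _ _ (by rw [← hφ, add_mul, ← hφ, ← hφ, mul_add])
      map_smul' := fun c b => by
        rw [RingHom.id_apply, ← map_smul]
        exact huniq _ _ (by rw [← hφ, smul_mul_assoc, ← hφ, mul_smul_comm]) }
  have hf₀ : ∀ b, f₀ b = π (φ b) := fun _ => rfl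
  let f : B →ₐ[k] C := AlgHom.ofLinearMap f₀
    (by
      rw [hf₀, ← map_one π]
      exact huniq _ _ (by rw [← hφ, mul_one, one_mul]))
    (fun b b' => by
      rw [hf₀, hf₀, hf₀, ← map_mul]
      exact huniq _ _ (by rw [← hφ, mul_assoc, ← hφ, ← mul_assoc, ← mul_assoc, ← hφ]))
  have key : ∀ b, LinearMap.lTensor C f₀ (rho π b) = Coalgebra.comul (R := k) (f₀ b) := by
    intro b
    obtain ⟨t', h1, h2⟩ := lift_tw π X φ hφ f₀ hf₀ (rho π b)
    have h3 : (t' - rho π (φ b)) * ((1 : C) ⊗ₜ[k] (X ^ 1)) ∈ CI k C X (1 + 1) := by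
      have h4 : (t' - rho π (φ b)) * ((1 : C) ⊗ₜ[k] (X ^ 1)) =
          rho π (φ b) * (rho π X - (1 : C) ⊗ₜ[k] X) -
            (rho π X - (1 : C) ⊗ₜ[k] X) * rho π b := by
        have h5 : rho π X * rho π b = rho π (φ b) * rho π X := by
          rw [← map_mul, hφ b, map_mul]
        rw [pow_one, sub_mul, ← h1, mul_sub, sub_mul, h5]
        abel
      rw [h4]
      refine Submodule.sub_mem _ ?_ ?_
      · have h6 := CI_mul π X hk (zero_CI X (rho π (φ b))) hX2
        rwa [Nat.zero_add] at h6
      · have h6 := CI_mul π X hk hX2 (zero_CI X (rho π b))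
        exact h6
    have h7 := free_gen_tmul π hs X hk hX hp1 h3
    rw [map_sub, sub_eq_zero, h2, pi_rho] at h7
    exact h7
  let χ : B →ₐ[k] k := (Bialgebra.counitAlgHom k C).comp f
  refine ⟨χ, fun b => ?_⟩
  have hχ : χ.toLinearMap = (Coalgebra.counit (R := k) (A := C)) ∘ₗ f₀ := rfl
  have h8 : f₀ b = π (rwn χ b) := by
    have h9 := congrArg (fun t => TensorProduct.rid k C
      (LinearMap.lTensor C (Coalgebra.counit (R := k) (A := C)) t)) (key b)
    change TensorProduct.rid k C (LinearMap.lTensor C (Coalgebra.counit (R := k) (A := C))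
      (LinearMap.lTensor C f₀ (rho π b))) = TensorProduct.rid k C
      (LinearMap.lTensor C (Coalgebra.counit (R := k) (A := C)) (Coalgebra.comul (R := k) (f₀ b)))
      at h9
    rw [← LinearMap.comp_apply, ← LinearMap.lTensor_comp, ← hχ,
      Coalgebra.lTensor_counit_comul, TensorProduct.rid_tmul, one_smul] at h9
    rw [← h9, rwn_apply, Rg_apply]
    have h10 : ∀ t : B ⊗[k] B, TensorProduct.rid k C (LinearMap.lTensor C χ.toLinearMap
        (Algebra.TensorProduct.map (π : B →ₐ[k] C) (AlgHom.id k B) t)) =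
        π (TensorProduct.rid k B (LinearMap.lTensor B χ.toLinearMap t)) := by
      intro t
      induction t using TensorProduct.induction_on with
      | zero => simp
      | add s t hs ht => simp only [map_add, hs, ht]
      | tmul a c => simp
    exact h10 _
  obtain ⟨c, hc⟩ := (hk (φ b - rwn χ b)).1 (by rw [map_sub, ← hf₀, h8, sub_self])
  refine ⟨c, ?_⟩
  rw [hφ b, ← sub_mul, hc, pow_two, mul_assoc]

end

end Pool.Agent.Helper90.R2
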