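import Pool.Agent.Helper90.R2.Char

/-!
# Exact sequences with principal nilpotent kernel
-/

set_option linter.unusedSectionVars false
set_option autoImplicit false

open scoped TensorProduct
open WithConv
open Pool.Agent.Helper59.FG Pool.Agent.Helper90.UN
open Pool.Agent.Helper90.FC hiding rho
open Pool.Agent.Helper56.SS hiding rho
open Pool.Agent.Helper90.R1 Pool.Agent.Helper77.R1

namespace Pool.Agent.Helper90.R2

universe u

section

variable {k : Type u} [Field k] {A B C : Type u} [Ring A] [Ring B] [Ring C]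
variable [HopfAlgebra k A] [HopfAlgebra k B] [HopfAlgebra k C]

theorem counit_Rg (g : B →ₗ[k] k) (b : B) : Coalgebra.counit (R := k) (Rg g b) = g b := by
  have h := LinearMap.congr_fun (conv_Rg (Coalgebra.counit (R := k) (A := B)) g) b
  rw [LinearMap.comp_apply] at h
  rw [h]
  have h2 : toConv (Coalgebra.counit (R := k) (A := B)) = (1 : WithConv (B →ₗ[k] k)) := by
    apply WithConv.ext
    exact LinearMap.ext fun x => rfl
  rw [h2, one_mul]

/-- The generator of the augmentation ideal of the kernel. -/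
structure Gen (ι : A →ₐc[k] B) (π : B →ₐc[k] C) (x : A) : Prop where
  surj : Function.Surjective π
  ker : ∀ b : B, π b = 0 ↔ b ∈ Ideal.span (ι '' {a : A | Coalgebra.counit (R := k) a = 0})
  gen : ∀ a : A, Coalgebra.counit (R := k) a = 0 ↔ ∃ a' : A, a = a' * x
  nil : IsNilpotent x

variable {ι : A →ₐc[k] B} {π : B →ₐc[k] C} {x : A} (G : Gen ι π x)

include G

theorem Gen.hk (b : B) : π b = 0 ↔ ∃ b' : B, b = b' * ι x := by
  rw [G.ker]
  constructor
  · intro h
    induction h using Submodule.span_induction with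
    | mem y hy =>
      obtain ⟨a, ha, rfl⟩ := hy
      obtain ⟨a', rfl⟩ := (G.gen a).1 ha
      exact ⟨ι a', map_mul ι a' x⟩
    | zero => exact ⟨0, by rw [zero_mul]⟩
    | add y z _ _ hy hz =>
      obtain ⟨y', rfl⟩ := hy
      obtain ⟨z', rfl⟩ := hz
      exact ⟨y' + z', by rw [add_mul]⟩
    | smul c y _ hy =>
      obtain ⟨y', rfl⟩ := hy
      exact ⟨c * y', by rw [smul_eq_mul, mul_assoc]⟩
  · rintro ⟨b', rfl⟩
    exact Ideal.mul_mem_left _ _ (Ideal.subset_span ⟨x, (G.gen x).2 ⟨1, (one_mul x).symm⟩, rfl⟩)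

theorem Gen.nilX : IsNilpotent (ι x) := by
  obtain ⟨n, hn⟩ := G.nil
  exact ⟨n, by rw [← map_pow, hn, map_zero]⟩

theorem Gen.dec (a : A) : ∃ a' : A, a = algebraMap k A (Coalgebra.counit (R := k) a) + a' * x := by
  obtain ⟨a', ha'⟩ := (G.gen (a - algebraMap k A (Coalgebra.counit (R := k) a))).1 (by
    rw [map_sub, Bialgebra.counit_algebraMap, sub_self])
  exact ⟨a', by rw [← ha']; abel⟩

theorem Gen.pi_iota (a : A) : π (ι a) = algebraMap k C (Coalgebra.counit (R := k) a) := by
  obtain ⟨a', ha'⟩ := G.dec a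
  have h1 : π (ι (a' * x)) = 0 := (G.hk _).2 ⟨ι a', map_mul ι a' x⟩
  have h2 : π (ι (algebraMap k A (Coalgebra.counit (R := k) a))) =
      algebraMap k C (Coalgebra.counit (R := k) a) := by
    have e1 := AlgHomClass.commutes ι (Coalgebra.counit (R := k) a)
    have e2 := AlgHomClass.commutes π (Coalgebra.counit (R := k) a)
    rw [e1, e2]
  conv_lhs => rw [ha']
  rw [map_add, map_add, h1, add_zero, h2]

theorem Gen.chi_iota (χ : B →ₐ[k] k) (a : A) : χ (ι a) = Coalgebra.counit (R := k) a := by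
  obtain ⟨a', ha'⟩ := G.dec a
  have h0 : χ (ι x) = 0 := by
    obtain ⟨n, hn⟩ := G.nilX
    have h1 : χ (ι x) ^ n = 0 := by rw [← map_pow, hn, map_zero]
    exact (pow_eq_zero_iff (n := n) (by
      rintro rfl
      rw [pow_zero] at h1
      exact one_ne_zero h1)).1 h1
  have h2 : χ (ι (algebraMap k A (Coalgebra.counit (R := k) a))) =
      Coalgebra.counit (R := k) a := by
    have e1 := AlgHomClass.commutes ι (Coalgebra.counit (R := k) a)
    rw [e1]
    exact χ.commutes _
  conv_lhs => rw [ha']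
  rw [map_add, map_add, h2, map_mul, map_mul, h0, mul_zero, add_zero]

theorem Gen.rwn_iota (χ : B →ₐ[k] k) (a : A) : rwn χ (ι a) = ι a := by
  have h : ∀ t : A ⊗[k] A, TensorProduct.rid k B (χ.toLinearMap.lTensor B
      (TensorProduct.map ι.toCoalgHom.toLinearMap ι.toCoalgHom.toLinearMap t)) =
      ι (TensorProduct.rid k A ((Coalgebra.counit (R := k)).lTensor A t)) := by
    intro t
    induction t using TensorProduct.induction_on with
    | zero => simp
    | add s t hs ht => simp only [map_add, hs, ht]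
    | tmul a c =>
      rw [TensorProduct.map_tmul, LinearMap.lTensor_tmul, TensorProduct.rid_tmul,
        LinearMap.lTensor_tmul, TensorProduct.rid_tmul, map_smul]
      have h1 : χ.toLinearMap (ι.toCoalgHom.toLinearMap c) = Coalgebra.counit (R := k) c :=
        G.chi_iota χ c
      rw [h1]
      rfl
  rw [rwn_apply, Rg_apply, map_comul, h, Coalgebra.lTensor_counit_comul, TensorProduct.rid_tmul,
    one_smul]

theorem Gen.lwn_iota (χ : B →ₐ[k] k) (a : A) : lwn χ (ι a) = ι a := by
  have h : ∀ t : A ⊗[k] A, TensorProduct.lid k B (χ.toLinearMap.rTensor B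
      (TensorProduct.map ι.toCoalgHom.toLinearMap ι.toCoalgHom.toLinearMap t)) =
      ι (TensorProduct.lid k A ((Coalgebra.counit (R := k)).rTensor A t)) := by
    intro t
    induction t using TensorProduct.induction_on with
    | zero => simp
    | add s t hs ht => simp only [map_add, hs, ht]
    | tmul c a =>
      rw [TensorProduct.map_tmul, LinearMap.rTensor_tmul, TensorProduct.lid_tmul,
        LinearMap.rTensor_tmul, TensorProduct.lid_tmul, map_smul]
      have h1 : χ.toLinearMap (ι.toCoalgHom.toLinearMap c) = Coalgebra.counit (R := k) c :=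
        G.chi_iota χ c
      rw [h1]
      rfl
  rw [lwn_apply, Lf_apply, map_comul, h, Coalgebra.rTensor_counit_comul, TensorProduct.lid_tmul,
    one_smul]

theorem Gen.rho_iota (a : A) : rho π (ι a) = (1 : C) ⊗ₜ[k] (ι a) := by
  have h : ∀ t : A ⊗[k] A, Algebra.TensorProduct.map (π : B →ₐ[k] C) (AlgHom.id k B)
      (TensorProduct.map ι.toCoalgHom.toLinearMap ι.toCoalgHom.toLinearMap t) =
      (1 : C) ⊗ₜ[k] ι (TensorProduct.lid k A ((Coalgebra.counit (R := k)).rTensor A t)) := by
    intro t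
    induction t using TensorProduct.induction_on with
    | zero => simp
    | add s t hs ht => simp only [map_add, hs, ht, TensorProduct.tmul_add]
    | tmul c a =>
      rw [TensorProduct.map_tmul, Algebra.TensorProduct.map_tmul, LinearMap.rTensor_tmul,
        TensorProduct.lid_tmul, map_smul, TensorProduct.tmul_smul]
      have h1 : (π : B →ₐ[k] C) (ι.toCoalgHom.toLinearMap c) =
          algebraMap k C (Coalgebra.counit (R := k) c) := G.pi_iota c
      rw [h1, Algebra.algebraMap_eq_smul_one, TensorProduct.smul_tmul']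
      rfl
  change Algebra.TensorProduct.map (π : B →ₐ[k] C) (AlgHom.id k B)
    (Coalgebra.comul (R := k) (ι a)) = _
  rw [map_comul, h, Coalgebra.rTensor_counit_comul, TensorProduct.lid_tmul, one_smul]

theorem Gen.Rg_left (g : C →ₗ[k] k) (a : A) (b : B) :
    Rg (g ∘ₗ (π : B →ₐ[k] C).toLinearMap) (ι a * b) =
      ι a * Rg (g ∘ₗ (π : B →ₐ[k] C).toLinearMap) b := by
  have h : ∀ (t : A ⊗[k] A) (s : B ⊗[k] B), TensorProduct.rid k B
      ((g ∘ₗ (π : B →ₐ[k] C).toLinearMap).lTensor B
      (TensorProduct.map ι.toCoalgHom.toLinearMap ι.toCoalgHom.toLinearMap t * s)) =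
      ι (TensorProduct.rid k A ((Coalgebra.counit (R := k)).lTensor A t)) *
        TensorProduct.rid k B ((g ∘ₗ (π : B →ₐ[k] C).toLinearMap).lTensor B s) := by
    intro t s
    induction t using TensorProduct.induction_on with
    | zero => simp
    | add t t' ht ht' => simp only [map_add, add_mul, ht, ht']
    | tmul a c =>
      induction s using TensorProduct.induction_on with
      | zero => simp
      | add s s' hs hs' => simp only [map_add, mul_add, hs, hs']
      | tmul u v =>
        rw [TensorProduct.map_tmul, Algebra.TensorProduct.tmul_mul_tmul, LinearMap.lTensor_tmul,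
          TensorProduct.rid_tmul, LinearMap.lTensor_tmul, TensorProduct.rid_tmul,
          LinearMap.lTensor_tmul, TensorProduct.rid_tmul, map_smul, smul_mul_smul_comm]
        have h1 : (g ∘ₗ (π : B →ₐ[k] C).toLinearMap) (ι.toCoalgHom.toLinearMap c * v) =
            Coalgebra.counit (R := k) c * (g ∘ₗ (π : B →ₐ[k] C).toLinearMap) v := by
          change g (π (ι c * v)) = Coalgebra.counit (R := k) c * g (π v)
          rw [map_mul, G.pi_iota, ← Algebra.smul_def, map_smul, smul_eq_mul]
        rw [h1]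
        rfl
  rw [Rg_apply, Bialgebra.comul_mul, map_comul ι a, h, Coalgebra.lTensor_counit_comul,
    TensorProduct.rid_tmul, one_smul]
  rfl

theorem Gen.Rg_right (g : C →ₗ[k] k) (a : A) (b : B) :
    Rg (g ∘ₗ (π : B →ₐ[k] C).toLinearMap) (b * ι a) =
      Rg (g ∘ₗ (π : B →ₐ[k] C).toLinearMap) b * ι a := by
  have h : ∀ (t : A ⊗[k] A) (s : B ⊗[k] B), TensorProduct.rid k B
      ((g ∘ₗ (π : B →ₐ[k] C).toLinearMap).lTensor B
      (s * TensorProduct.map ι.toCoalgHom.toLinearMap ι.toCoalgHom.toLinearMap t)) =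
      TensorProduct.rid k B ((g ∘ₗ (π : B →ₐ[k] C).toLinearMap).lTensor B s) *
      ι (TensorProduct.rid k A ((Coalgebra.counit (R := k)).lTensor A t)) := by
    intro t s
    induction t using TensorProduct.induction_on with
    | zero => simp
    | add t t' ht ht' => simp only [map_add, mul_add, ht, ht']
    | tmul a c =>
      induction s using TensorProduct.induction_on with
      | zero => simp
      | add s s' hs hs' => simp only [map_add, add_mul, hs, hs']
      | tmul u v =>
        rw [TensorProduct.map_tmul, Algebra.TensorProduct.tmul_mul_tmul, LinearMap.lTensor_tmul,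
          TensorProduct.rid_tmul, LinearMap.lTensor_tmul, TensorProduct.rid_tmul,
          LinearMap.lTensor_tmul, TensorProduct.rid_tmul, map_smul, smul_mul_smul_comm]
        have h1 : (g ∘ₗ (π : B →ₐ[k] C).toLinearMap) (v * ι.toCoalgHom.toLinearMap c) =
            (g ∘ₗ (π : B →ₐ[k] C).toLinearMap) v * Coalgebra.counit (R := k) c := by
          change g (π (v * ι c)) = g (π v) * Coalgebra.counit (R := k) c
          rw [map_mul, G.pi_iota, ← Algebra.commutes, ← Algebra.smul_def, map_smul, smul_eq_mul,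
            mul_comm]
        rw [h1]
        rfl
  rw [Rg_apply, Bialgebra.comul_mul, map_comul ι a, h, Coalgebra.lTensor_counit_comul,
    TensorProduct.rid_tmul, one_smul]
  rfl

variable [Module.Finite k B] [Module.Finite k C]

/-- `χ` is central modulo `π`. -/
theorem Gen.pi_eq {χ : B →ₐ[k] k} (hχ : Twist (ι x) χ) (h0 : ι x ≠ 0) (b : B) :
    π (rwn χ b) = π (lwn χ b) := by
  refine sep (k := k) _ _ fun g => ?_
  obtain ⟨c, hc⟩ := hχ b
  set gh := g ∘ₗ (π : B →ₐ[k] C).toLinearMap with hgh
  obtain ⟨c', hc'⟩ := hχ (Rg gh b)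
  have h1 := congrArg (Rg gh) hc
  rw [map_sub, G.Rg_left, G.Rg_right, pow_two, ← mul_assoc, G.Rg_right, G.Rg_right] at h1
  have h2 : (rwn χ (Rg gh b) - Rg gh (rwn χ b)) * ι x ^ 1 ∈ Ix k (ι x) (1 + 1) := by
    refine ⟨Rg gh c - c', ?_⟩
    rw [LinearMap.mulRight_apply, one_add_one_eq_two, pow_one, sub_mul, sub_mul, ← hc', pow_two,
      ← mul_assoc, ← h1]
    abel
  have h3 := free_gen π G.surj (ι x) G.hk G.nilX (by rwa [pow_one]) h2
  have h4 := congrArg (Coalgebra.counit (R := k) (A := C)) h3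
  rw [Pool.Agent.Helper90.UN.map_counit π, map_zero, map_sub, counit_rwn, counit_Rg,
    sub_eq_zero] at h4
  have h5 : χ (Rg gh b) = gh (lwn χ b) := by
    have e1 := LinearMap.congr_fun (conv_Rg χ.toLinearMap gh) b
    have e2 := LinearMap.congr_fun (conv_Lf gh χ.toLinearMap) b
    rw [LinearMap.comp_apply] at e1 e2
    rw [lwn_apply, e2]
    exact e1
  rw [h5] at h4
  exact h4.symm

omit G [Module.Finite k B] [Module.Finite k C] in
/-- A unipotent automorphism of finite order invertible in `k` is trivial. -/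
theorem unip {X : B} (hX : IsNilpotent X) (θ : B →ₐ[k] B) (hθX : θ X = X)
    (h1 : ∀ b, ∃ c, θ b = b + c * X) {n : ℕ} (hn : (n : k) ≠ 0) (hθ : θ ^ n = 1) : θ = 1 := by
  have key : ∀ j : ℕ, 1 ≤ j → ∀ b, ∃ c, θ b = b + c * X ^ j := by
    intro j hj
    induction j, hj using Nat.le_induction with
    | base => intro b; rw [pow_one]; exact h1 b
    | succ j hj ih =>
      intro b
      obtain ⟨c, hc⟩ := ih b
      obtain ⟨c', hc'⟩ := ih c
      have hXj : θ (X ^ j) = X ^ j := by rw [map_pow, hθX]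
      have hXj1 : θ (X ^ (j + 1)) = X ^ (j + 1) := by rw [map_pow, hθX]
      have e : X ^ j * X ^ j = X ^ (j - 1) * X ^ (j + 1) := by
        rw [← pow_add, ← pow_add]
        congr 1
        omega
      have h2 : ∀ m : ℕ, ∃ d, (θ ^ m) b = b + m • (c * X ^ j) + d * X ^ (j + 1) := by
        intro m
        induction m with
        | zero => exact ⟨0, by rw [zero_smul, zero_mul, add_zero, add_zero, pow_zero]; rfl⟩
        | succ m ihm =>
          obtain ⟨d, hd⟩ := ihm
          refine ⟨m • (c' * X ^ (j - 1)) + θ d, ?_⟩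
          have h3 : (θ ^ (m + 1)) b = θ ((θ ^ m) b) := by
            rw [pow_succ']
            rfl
          rw [h3, hd, map_add, map_add, map_nsmul, map_mul, hXj, map_mul, hXj1, hc, hc', add_mul,
            mul_assoc c', e, add_mul, smul_mul_assoc, mul_assoc c', succ_nsmul, smul_add]
          abel
      obtain ⟨d, hd⟩ := h2 n
      rw [hθ] at hd
      have h4 : (n : k) • (c * X ^ j) + d * X ^ (j + 1) = 0 := by
        have h5 : b + ((n : k) • (c * X ^ j) + d * X ^ (j + 1)) = b := by
          rw [Nat.cast_smul_eq_nsmul, ← add_assoc]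
          exact hd.symm
        exact left_eq_add.1 h5.symm
      refine ⟨-((n : k)⁻¹ • d), ?_⟩
      have h6 : c * X ^ j = -((n : k)⁻¹ • d) * X ^ (j + 1) := by
        have h7 : (n : k) • (c * X ^ j) = -(d * X ^ (j + 1)) := eq_neg_of_add_eq_zero_left h4
        have h8 := congrArg (fun y => (n : k)⁻¹ • y) h7
        simp only [smul_smul] at h8
        rw [inv_mul_cancel₀ hn, one_smul] at h8
        rw [h8, neg_mul, smul_mul_assoc, smul_neg]
      rw [hc, h6]
  obtain ⟨N, hN⟩ := hX
  refine AlgHom.ext fun b => ?_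
  obtain ⟨c, hc⟩ := key (N + 1) (by omega) b
  rw [hc, pow_succ, hN, zero_mul, mul_zero, add_zero]
  rfl

/-- The winding endomorphisms agree. -/
theorem Gen.rwn_lwn {χ : B →ₐ[k] k} (hχ : Twist (ι x) χ) (h0 : ι x ≠ 0)
    (h : CentralChar χ ∨ ∃ n : ℕ, (n : k) ≠ 0 ∧ toConv χ.toLinearMap ^ n = 1) :
    rwn χ = lwn χ := by
  rcases h with h | ⟨n, hn, hχn⟩
  · exact rwn_eq_lwn h
  · have hn0 : n ≠ 0 := by
      rintro rfl
      exact hn Nat.cast_zero
    obtain ⟨m, rfl⟩ : ∃ m, n = m + 1 := ⟨n - 1, by omega⟩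
    have hR := rwn_pow hχn
    have hL := lwn_pow hχn
    have hc : Commute (lwn χ) (rwn χ) := (Pool.Agent.Helper90.R2.rwn_lwn χ).symm
    have hRm : ∀ y, rwn χ ((rwn χ ^ m) y) = y := by
      intro y
      have e : rwn χ ((rwn χ ^ m) y) = (rwn χ ^ (m + 1)) y := by
        rw [pow_succ']
        rfl
      rw [e, hR]
      rfl
    have hpowX : ∀ i : ℕ, (rwn χ ^ i) (ι x) = ι x := by
      intro i
      induction i with
      | zero => rfl
      | succ i ih =>
        have e : (rwn χ ^ (i + 1)) (ι x) = rwn χ ((rwn χ ^ i) (ι x)) := by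
          rw [pow_succ']
          rfl
        rw [e, ih, G.rwn_iota]
    have hθ : lwn χ * rwn χ ^ m = 1 := by
      refine unip G.nilX (lwn χ * rwn χ ^ m) ?_ (fun b => ?_) hn ?_
      · change lwn χ ((rwn χ ^ m) (ι x)) = ι x
        rw [hpowX, G.lwn_iota]
      · obtain ⟨c, hc'⟩ := (G.hk ((lwn χ * rwn χ ^ m) b - b)).1 (by
          rw [map_sub]
          change π (lwn χ ((rwn χ ^ m) b)) - π b = 0
          rw [← G.pi_eq hχ h0, hRm, sub_self])
        exact ⟨c, by rw [← hc']; abel⟩
      · rw [(hc.pow_right m).mul_pow, hL, one_mul, ← pow_mul, mul_comm m, pow_mul, hR, one_pow]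
    calc rwn χ = (lwn χ * rwn χ ^ m) * rwn χ := by rw [hθ, one_mul]
      _ = lwn χ * (rwn χ ^ (m + 1)) := by rw [mul_assoc, pow_succ]
      _ = lwn χ := by rw [hR, mul_one]

/-- COROLLARY E. -/
theorem Gen.fge
    (h : ∀ χ : B →ₐ[k] k, Twist (ι x) χ →
      CentralChar χ ∨ ∃ n : ℕ, (n : k) ≠ 0 ∧ toConv χ.toLinearMap ^ n = 1)
    (hC : FGE k C) : FGE k B := by
  by_cases h0 : ι x = 0
  · have hinj : Function.Injective π := by
      rw [injective_iff_map_eq_zero]
      intro b hb
      obtain ⟨b', hb'⟩ := (G.hk b).1 hb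
      rw [hb', h0, mul_zero]
    exact fge_hopfSub π hinj hC
  · obtain ⟨χ, hχ⟩ := exists_twist π G.surj (ι x) G.hk G.nilX h0 (by
      rw [G.rho_iota, sub_self]
      exact Submodule.zero_mem _)
    have hRL := G.rwn_lwn hχ h0 (h χ hχ)
    have hW := wind_of_eq hRL
    have hn : 0 < orderOf (rwn χ) := hW.finOrder.orderOf_pos
    obtain ⟨m, hm⟩ : ∃ m, orderOf (rwn χ) = m + 1 := ⟨orderOf (rwn χ) - 1, by omega⟩
    have hR : rwn χ ^ (m + 1) = 1 := by rw [← hm]; exact pow_orderOf_eq_one _
    have hRm : ∀ y, rwn χ ((rwn χ ^ m) y) = y := by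
      intro y
      have e : rwn χ ((rwn χ ^ m) y) = (rwn χ ^ (m + 1)) y := by
        rw [pow_succ']
        rfl
      rw [e, hR]
      rfl
    have hpowX : ∀ i : ℕ, (rwn χ ^ i) (ι x) = ι x := by
      intro i
      induction i with
      | zero => rfl
      | succ i ih =>
        have e : (rwn χ ^ (i + 1)) (ι x) = rwn χ ((rwn χ ^ i) (ι x)) := by
          rw [pow_succ']
          rfl
        rw [e, ih, G.rwn_iota]
    refine fge_wind π G.surj (ι x) G.hk G.nilX (rwn χ ^ m) (hW.pow m) (hpowX m) (fun b => ?_) hC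
    obtain ⟨c, hc⟩ := hχ ((rwn χ ^ m) b)
    rw [hRm] at hc
    exact ⟨c, hc⟩

end

end Pool.Agent.Helper90.R2
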