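import Pool.Agent.Helper90.R2.Wind

/-!
# Fixed points of winding automorphisms: the Hopf subalgebra and the averaging element
-/

set_option linter.unusedSectionVars false
set_option autoImplicit false

open scoped TensorProduct
open Pool.Agent.Helper59.FG Pool.Agent.Helper90.FC Pool.Agent.Helper90.UN Pool.Agent.Helper56.SS

namespace Pool.Agent.Helper90.R2

universe u

section

variable {k : Type u} [Field k] {B : Type u} [Ring B] [HopfAlgebra k B] [Module.Finite k B]
variable {Φ : B →ₐ[k] B}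

theorem Wind.finOrder (hΦ : Wind Φ) : IsOfFinOrder Φ := by
  obtain ⟨i, j, hne, hij⟩ := Finite.exists_ne_map_eq_of_infinite
    (fun n : ℕ => chr (Φ ^ n))
  have h1 : Φ ^ i = Φ ^ j := (hΦ.pow i).ext (hΦ.pow j) hij
  have key : ∀ i j : ℕ, i < j → Φ ^ i = Φ ^ j → IsOfFinOrder Φ := by
    intro i j hlt h
    rw [isOfFinOrder_iff_pow_eq_one]
    refine ⟨j - i, by omega, AlgHom.ext fun b => ?_⟩
    apply (hΦ.pow i).inj
    have h2 : (Φ ^ i) ((Φ ^ (j - i)) b) = (Φ ^ i * Φ ^ (j - i)) b := rfl
    rw [h2, ← pow_add, Nat.add_sub_cancel' hlt.le, ← h]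
    rfl
  rcases lt_or_gt_of_ne hne with h | h
  · exact key i j h h1
  · exact key j i h h1.symm

/-- The dual element. -/
theorem Wind.exists_t (hΦ : Wind Φ) : ∃ t : B, ∀ i < orderOf Φ,
    chr (Φ ^ i) t = if i = 0 then 1 else 0 := by
  let n := orderOf Φ
  let f : Fin n → (B →ₗ[k] k) := fun i => (chr (Φ ^ (i : ℕ))).toLinearMap
  have hf : LinearIndependent k f := by
    refine (linearIndependent_toLinearMap k B k).comp (fun i : Fin n => chr (Φ ^ (i : ℕ))) ?_
    intro i j hij
    have h1 : Φ ^ (i : ℕ) = Φ ^ (j : ℕ) := (hΦ.pow i).ext (hΦ.pow j) hij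
    exact Fin.ext (pow_injOn_Iio_orderOf i.2 j.2 h1)
  have hf' : LinearIndependent k (fun i : Fin n => (f i : B → k)) := by
    have h1 := hf.map' (LinearMap.ltoFun k B k k) (by
      rw [LinearMap.ker_eq_bot]
      exact fun g h hgh => LinearMap.ext fun b => congrFun hgh b)
    exact h1
  have h1 := span_flip_eq_top_iff_linearIndependent.2 hf'
  let L : B →ₗ[k] (Fin n → k) := LinearMap.pi f
  have h2 : Submodule.span k (Set.range (flip fun i : Fin n => (f i : B → k))) ≤
      LinearMap.range L := by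
    rw [Submodule.span_le]
    rintro _ ⟨b, rfl⟩
    exact ⟨b, rfl⟩
  rw [h1] at h2
  obtain ⟨t, ht⟩ := h2 (show (fun i : Fin n => if (i : ℕ) = 0 then (1 : k) else 0) ∈
    (⊤ : Submodule k (Fin n → k)) from trivial)
  exact ⟨t, fun i hi => congrFun ht ⟨i, hi⟩⟩

/-- The fixed points. -/
def fixS (Φ : B →ₐ[k] B) : Subalgebra k B := AlgHom.equalizer Φ (AlgHom.id k B)

theorem mem_fixS (Φ : B →ₐ[k] B) (b : B) : b ∈ fixS Φ ↔ Φ b = b := Iff.rfl

/-- The Hopf subalgebra of the fixed points. -/
theorem Wind.exists_K (hΦ : Wind Φ) : ∃ (K : Type u) (_ : Ring K) (_ : HopfAlgebra k K)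
    (j : K →ₐc[k] B), Function.Injective j ∧ ∀ b, b ∈ Set.range j ↔ Φ b = b := by
  have hS : ∀ b ∈ fixS Φ, Coalgebra.comul (R := k) b ∈ LinearMap.range
      (TensorProduct.map (fixS Φ).val.toLinearMap (fixS Φ).val.toLinearMap) := by
    intro b hb
    rw [mem_fixS] at hb
    refine mem_range_of_slices (Subalgebra.toSubmodule (fixS Φ)) _ (fun f => ?_) (fun g => ?_)
    · have h1 : ∀ t : B ⊗[k] B, Φ (TensorProduct.lid k B (f.rTensor B t)) =
          TensorProduct.lid k B (f.rTensor B (Φ.toLinearMap.lTensor B t)) := by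
        intro t
        induction t using TensorProduct.induction_on with
        | zero => simp
        | add s t hs ht => simp only [map_add, hs, ht]
        | tmul a c =>
          rw [LinearMap.rTensor_tmul, TensorProduct.lid_tmul, map_smul, LinearMap.lTensor_tmul,
            LinearMap.rTensor_tmul, TensorProduct.lid_tmul]
          rfl
      rw [Subalgebra.mem_toSubmodule, mem_fixS, h1, ← hΦ.l, hb]
    · have h1 : ∀ t : B ⊗[k] B, Φ (TensorProduct.rid k B (g.lTensor B t)) =
          TensorProduct.rid k B (g.lTensor B (Φ.toLinearMap.rTensor B t)) := by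
        intro t
        induction t using TensorProduct.induction_on with
        | zero => simp
        | add s t hs ht => simp only [map_add, hs, ht]
        | tmul a c =>
          rw [LinearMap.lTensor_tmul, TensorProduct.rid_tmul, map_smul, LinearMap.rTensor_tmul,
            LinearMap.lTensor_tmul, TensorProduct.rid_tmul]
          rfl
      rw [Subalgebra.mem_toSubmodule, mem_fixS, h1, ← hΦ.r, hb]
  obtain ⟨K, i1, i2, j, hj, hjr⟩ := exists_subHopf_ring (fixS Φ) hS
    (fun b hb => antipode_mem (fixS Φ) hS hb)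
  refine ⟨K, i1, i2, j, hj, fun b => ?_⟩
  rw [hjr]
  exact mem_fixS Φ b

/-- The trace. -/
noncomputable def tr (Φ : B →ₐ[k] B) : B →ₗ[k] B :=
  ∑ i ∈ Finset.range (orderOf Φ), (Φ ^ i).toLinearMap

theorem tr_apply (Φ : B →ₐ[k] B) (b : B) :
    tr Φ b = ∑ i ∈ Finset.range (orderOf Φ), (Φ ^ i) b := by
  rw [tr, LinearMap.sum_apply]
  rfl

theorem Wind.tr_fix (hΦ : Wind Φ) (b : B) : Φ (tr Φ b) = tr Φ b := by
  have hn : 0 < orderOf Φ := hΦ.finOrder.orderOf_pos
  obtain ⟨m, hm⟩ : ∃ m, orderOf Φ = m + 1 := ⟨orderOf Φ - 1, by omega⟩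
  have h1 : Φ ^ (m + 1) = 1 := by rw [← hm]; exact pow_orderOf_eq_one Φ
  have h2 : ∀ i, Φ ((Φ ^ i) b) = (Φ ^ (i + 1)) b := fun i => by
    rw [pow_succ']
    rfl
  rw [tr_apply, hm, map_sum]
  simp only [h2]
  rw [Finset.sum_range_succ, Finset.sum_range_succ', h1, pow_zero]

/-- `B K⁺` contains the common kernel of the characters. -/
theorem Wind.mem_Jd (hΦ : Wind Φ) {K : Type u} [Ring K] [HopfAlgebra k K] (j : K →ₐc[k] B)
    (hj : ∀ b, b ∈ Set.range j ↔ Φ b = b) {b : B} (hb : ∀ i < orderOf Φ, chr (Φ ^ i) b = 0) :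
    b ∈ Jd j := by
  obtain ⟨t, ht⟩ := hΦ.exists_t
  let S := HopfAlgebra.antipode k (A := B)
  let F : B ⊗[k] B →ₗ[k] B := LinearMap.mul' k B ∘ₗ TensorProduct.map S
    (tr Φ ∘ₗ LinearMap.mulRight k b)
  have h1 : F (Coalgebra.comul (R := k) t) = b := by
    have h2 : ∀ w : B ⊗[k] B, F w = ∑ i ∈ Finset.range (orderOf Φ),
        LinearMap.mul' k B (S.rTensor B ((Φ ^ i).toLinearMap.lTensor B w)) * (Φ ^ i) b := by
      intro w
      induction w using TensorProduct.induction_on with
      | zero => simp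
      | add s t hs ht => simp only [map_add, hs, ht, add_mul, Finset.sum_add_distrib]
      | tmul a c =>
        have h3 : F (a ⊗ₜ[k] c) = S a * tr Φ (c * b) := rfl
        rw [h3, tr_apply, Finset.mul_sum]
        refine Finset.sum_congr rfl fun i _ => ?_
        rw [map_mul, LinearMap.lTensor_tmul, LinearMap.rTensor_tmul, LinearMap.mul'_apply,
          mul_assoc]
        rfl
    rw [h2]
    have h3 : ∀ i ∈ Finset.range (orderOf Φ), LinearMap.mul' k B (S.rTensor B
        ((Φ ^ i).toLinearMap.lTensor B (Coalgebra.comul (R := k) t))) * (Φ ^ i) b =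
        if i = 0 then b else 0 := by
      intro i hi
      rw [← (hΦ.pow i).l, HopfAlgebra.mul_antipode_rTensor_comul_apply]
      have h4 := ht i (Finset.mem_range.1 hi)
      rw [chr_apply] at h4
      rw [h4]
      split_ifs with h
      · rw [map_one, one_mul, h, pow_zero]
        rfl
      · rw [map_zero, zero_mul]
    rw [Finset.sum_congr rfl h3, Finset.sum_ite_eq', if_pos]
    rw [Finset.mem_range]
    exact hΦ.finOrder.orderOf_pos
  have h2 : ∀ w : B ⊗[k] B, F w ∈ Jd j := by
    intro w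
    induction w using TensorProduct.induction_on with
    | zero => rw [map_zero]; exact zero_mem _
    | add s t hs ht => rw [map_add]; exact add_mem hs ht
    | tmul a c =>
      have h3 : F (a ⊗ₜ[k] c) = S a * tr Φ (c * b) := rfl
      rw [h3]
      obtain ⟨x, hx⟩ := (hj _).2 (hΦ.tr_fix (c * b))
      refine Ideal.mul_mem_left _ _ (Ideal.subset_span ⟨x, ?_, hx⟩)
      change Coalgebra.counit (R := k) x = 0
      rw [← Pool.Agent.Helper90.UN.map_counit j, hx, tr_apply, map_sum]
      refine Finset.sum_eq_zero fun i hi => ?_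
      have h4 := hb i (Finset.mem_range.1 hi)
      change chr (Φ ^ i) (c * b) = 0
      rw [map_mul, h4, mul_zero]
  rw [← h1]
  exact h2 _

/-- The averaging element. -/
theorem Wind.exists_avg (hΦ : Wind Φ) {K : Type u} [Ring K] [HopfAlgebra k K] (j : K →ₐc[k] B)
    (hj : ∀ b, b ∈ Set.range j ↔ Φ b = b) : ∃ t : B, Avg j t := by
  obtain ⟨t, ht⟩ := hΦ.exists_t
  have h0 : Coalgebra.counit (R := k) t = 1 := by
    have h1 := ht 0 hΦ.finOrder.orderOf_pos
    rw [chr_apply, if_pos rfl, pow_zero] at h1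
    exact h1
  refine ⟨t, ⟨h0, fun b => hΦ.mem_Jd j hj fun i hi => ?_⟩⟩
  rw [map_sub, map_mul, map_smul, ht i hi]
  split_ifs with h
  · subst h
    rw [mul_one, smul_eq_mul, mul_one, chr_apply, pow_zero]
    exact sub_self _
  · rw [mul_zero, smul_zero, sub_zero]

end

end Pool.Agent.Helper90.R2
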