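import Pool.Agent.Helper90.R2.Exact

/-!
# Principal kernels generated by coinvariant elements
-/

set_option linter.unusedSectionVars false
set_option autoImplicit false

open scoped TensorProduct
open WithConv
open Pool.Agent.Helper59.FG Pool.Agent.Helper90.UN
open Pool.Agent.Helper90.FC hiding rho
open Pool.Agent.Helper56.SS hiding rho
open Pool.Agent.Helper90.R1 Pool.Agent.Helper77.R1

namespace Pool.Agent.Helper90.R2

universe u

section

variable {k : Type u} [Field k] {B : Type u} [Ring B] [HopfAlgebra k B]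

theorem conv_rwn_pow (χ : B →ₐ[k] k) (m : ℕ) (f : B →ₗ[k] k) :
    f ∘ₗ (rwn χ ^ m).toLinearMap = (toConv f * toConv χ.toLinearMap ^ m).ofConv := by
  induction m generalizing f with
  | zero =>
    rw [pow_zero, pow_zero, mul_one]
    rfl
  | succ m ih =>
    have h1 : (rwn χ ^ (m + 1)).toLinearMap =
        (rwn χ).toLinearMap ∘ₗ (rwn χ ^ m).toLinearMap := by
      rw [pow_succ']
      rfl
    rw [h1, ← LinearMap.comp_assoc, rwn_lin, conv_Rg, ih, pow_succ', mul_assoc]

theorem conv_lwn_pow (χ : B →ₐ[k] k) (m : ℕ) (f : B →ₗ[k] k) :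
    f ∘ₗ (lwn χ ^ m).toLinearMap = (toConv χ.toLinearMap ^ m * toConv f).ofConv := by
  induction m generalizing f with
  | zero =>
    rw [pow_zero, pow_zero, one_mul]
    rfl
  | succ m ih =>
    have h1 : (lwn χ ^ (m + 1)).toLinearMap =
        (lwn χ).toLinearMap ∘ₗ (lwn χ ^ m).toLinearMap := by
      rw [pow_succ']
      rfl
    rw [h1, ← LinearMap.comp_assoc, lwn_lin, conv_Lf, ih, pow_succ, mul_assoc]

/-- Some power of the character with exponent invertible in `k` is central in the dual. -/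
def PowCentral (χ : B →ₐ[k] k) : Prop :=
  ∃ n : ℕ, (n : k) ≠ 0 ∧ ∀ f : B →ₗ[k] k,
    toConv χ.toLinearMap ^ n * toConv f = toConv f * toConv χ.toLinearMap ^ n

theorem lwn_pow_eq {χ : B →ₐ[k] k} {n : ℕ} (h : ∀ f : B →ₗ[k] k,
    toConv χ.toLinearMap ^ n * toConv f = toConv f * toConv χ.toLinearMap ^ n) :
    lwn χ ^ n = rwn χ ^ n := by
  refine AlgHom.ext fun b => sep (k := k) _ _ fun f => ?_
  have h1 := LinearMap.congr_fun (conv_rwn_pow χ n f) b
  have h2 := LinearMap.congr_fun (conv_lwn_pow χ n f) b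
  rw [h f] at h2
  exact h2.trans h1.symm

/-- Characters of finite-dimensional Hopf algebras have finite order. -/
theorem exists_ord [Module.Finite k B] (χ : B →ₐ[k] k) :
    ∃ N : ℕ, 0 < N ∧ toConv χ.toLinearMap ^ N = 1 := by
  obtain ⟨i, j, hne, hij⟩ := Finite.exists_ne_map_eq_of_infinite
    (fun n : ℕ => chr (rwn χ ^ n))
  have h1 : toConv (χ.toLinearMap ∘ₗ HopfAlgebra.antipode k (A := B)) *
      toConv χ.toLinearMap = 1 := compS_mul χ
  have h2 : toConv χ.toLinearMap *
      toConv (χ.toLinearMap ∘ₗ HopfAlgebra.antipode k (A := B)) = 1 := mul_compS χ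
  let u : (WithConv (B →ₗ[k] k))ˣ := ⟨toConv χ.toLinearMap, _, h2, h1⟩
  have hpow : ∀ n : ℕ, toConv (chr (rwn χ ^ n)).toLinearMap = toConv χ.toLinearMap ^ n := by
    intro n
    have e := conv_rwn_pow χ n (Coalgebra.counit (R := k) (A := B))
    have e2 : toConv (Coalgebra.counit (R := k) (A := B)) = (1 : WithConv (B →ₗ[k] k)) := by
      apply WithConv.ext
      exact LinearMap.ext fun x => rfl
    rw [e2, one_mul] at e
    have e3 : (chr (rwn χ ^ n)).toLinearMap =
        (Coalgebra.counit (R := k) (A := B)) ∘ₗ (rwn χ ^ n).toLinearMap := rfl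
    rw [e3, e]
  have h3 : u ^ i = u ^ j := by
    apply Units.ext
    rw [Units.val_pow_eq_pow_val, Units.val_pow_eq_pow_val]
    change toConv χ.toLinearMap ^ i = toConv χ.toLinearMap ^ j
    rw [← hpow, ← hpow]
    exact congrArg (fun ψ : B →ₐ[k] k => toConv ψ.toLinearMap) hij
  have key : ∀ i j : ℕ, i < j → u ^ i = u ^ j → ∃ N : ℕ, 0 < N ∧
      toConv χ.toLinearMap ^ N = 1 := by
    intro i j hlt h
    refine ⟨j - i, by omega, ?_⟩
    have h4 : u ^ (j - i) = 1 := by
      have h5 : u ^ i * u ^ (j - i) = u ^ i * 1 := by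
        rw [← pow_add, Nat.add_sub_cancel' hlt.le, mul_one, h]
      exact mul_left_cancel h5
    have h6 := congrArg Units.val h4
    rw [Units.val_pow_eq_pow_val] at h6
    exact h6
  rcases lt_or_gt_of_ne hne with h | h
  · exact key i j h h3
  · exact key j i h h3.symm

end

section

variable {k : Type u} [Field k] {B C : Type u} [Ring B] [Ring C]
variable [HopfAlgebra k B] [HopfAlgebra k C]

/-- The kernel of `π` is generated by `X`, which is a coinvariant of `π` on both sides. -/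
structure Co (π : B →ₐc[k] C) (X : B) : Prop where
  surj : Function.Surjective π
  ker : ∀ b : B, π b = 0 ↔ ∃ b' : B, b = b' * X
  lco : Algebra.TensorProduct.map (π : B →ₐ[k] C) (AlgHom.id k B)
    (Coalgebra.comul (R := k) X) = (1 : C) ⊗ₜ[k] X
  rco : Algebra.TensorProduct.map (AlgHom.id k B) (π : B →ₐ[k] C)
    (Coalgebra.comul (R := k) X) = X ⊗ₜ[k] (1 : C)

variable {π : B →ₐc[k] C} {X : B} (G : Co π X)

include G

theorem Co.piX : π X = 0 := (G.ker X).2 ⟨1, (one_mul X).symm⟩

/-- Characters which kill `X` factor through `π`. -/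
theorem Co.fac {f : B →ₗ[k] k} (hf : ∀ b, f (b * X) = 0) :
    ∃ g : C →ₗ[k] k, g ∘ₗ (π : B →ₐ[k] C).toLinearMap = f := by
  obtain ⟨s, hs⟩ : ∃ s : C →ₗ[k] B, ∀ c, π (s c) = c := by
    obtain ⟨s, h⟩ := ((π : B →ₐ[k] C).toLinearMap).exists_rightInverse_of_surjective
      (LinearMap.range_eq_top.2 G.surj)
    exact ⟨s, fun c => LinearMap.congr_fun h c⟩
  refine ⟨f ∘ₗ s, LinearMap.ext fun b => ?_⟩
  obtain ⟨b', hb'⟩ := (G.ker (s (π b) - b)).1 (by rw [map_sub, hs, sub_self])
  have h1 := congrArg f hb'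
  rw [map_sub, hf, sub_eq_zero] at h1
  exact h1

theorem Co.chiX (hX : IsNilpotent X) (χ : B →ₐ[k] k) : χ X = 0 := by
  obtain ⟨n, hn⟩ := hX
  have h1 : χ X ^ n = 0 := by rw [← map_pow, hn, map_zero]
  exact (pow_eq_zero_iff (n := n) (by
    rintro rfl
    rw [pow_zero] at h1
    exact one_ne_zero h1)).1 h1

theorem Co.rwnX (hX : IsNilpotent X) (χ : B →ₐ[k] k) : rwn χ X = X := by
  obtain ⟨g, hg⟩ := G.fac (f := χ.toLinearMap) (fun b => by
    rw [AlgHom.toLinearMap_apply, map_mul, G.chiX hX χ, mul_zero])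
  have h1 : ∀ t : B ⊗[k] B, TensorProduct.rid k B (χ.toLinearMap.lTensor B t) =
      TensorProduct.rid k B (g.lTensor B (Algebra.TensorProduct.map (AlgHom.id k B)
        (π : B →ₐ[k] C) t)) := by
    intro t
    induction t using TensorProduct.induction_on with
    | zero => simp
    | add s t hs ht => simp only [map_add, hs, ht]
    | tmul a c =>
      rw [LinearMap.lTensor_tmul, Algebra.TensorProduct.map_tmul, LinearMap.lTensor_tmul, ← hg]
      rfl
  have h2 : g 1 = 1 := by
    have h3 := LinearMap.congr_fun hg 1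
    have h4 : (π : B →ₐ[k] C) 1 = 1 := map_one (π : B →ₐ[k] C)
    rw [LinearMap.comp_apply, AlgHom.toLinearMap_apply, AlgHom.toLinearMap_apply, h4,
      map_one χ] at h3
    exact h3
  rw [rwn_apply, Rg_apply, h1, G.rco, LinearMap.lTensor_tmul, TensorProduct.rid_tmul, h2,
    one_smul]

theorem Co.lwnX (hX : IsNilpotent X) (χ : B →ₐ[k] k) : lwn χ X = X := by
  obtain ⟨g, hg⟩ := G.fac (f := χ.toLinearMap) (fun b => by
    rw [AlgHom.toLinearMap_apply, map_mul, G.chiX hX χ, mul_zero])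
  have h1 : ∀ t : B ⊗[k] B, TensorProduct.lid k B (χ.toLinearMap.rTensor B t) =
      TensorProduct.lid k B (g.rTensor B (Algebra.TensorProduct.map (π : B →ₐ[k] C)
        (AlgHom.id k B) t)) := by
    intro t
    induction t using TensorProduct.induction_on with
    | zero => simp
    | add s t hs ht => simp only [map_add, hs, ht]
    | tmul a c =>
      rw [LinearMap.rTensor_tmul, Algebra.TensorProduct.map_tmul, LinearMap.rTensor_tmul, ← hg]
      rfl
  have h2 : g 1 = 1 := by
    have h3 := LinearMap.congr_fun hg 1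
    have h4 : (π : B →ₐ[k] C) 1 = 1 := map_one (π : B →ₐ[k] C)
    rw [LinearMap.comp_apply, AlgHom.toLinearMap_apply, AlgHom.toLinearMap_apply, h4,
      map_one χ] at h3
    exact h3
  rw [lwn_apply, Lf_apply, h1, G.lco, LinearMap.rTensor_tmul, TensorProduct.lid_tmul, h2,
    one_smul]

theorem Co.RgL (g : C →ₗ[k] k) (b : B) :
    Rg (g ∘ₗ (π : B →ₐ[k] C).toLinearMap) (X * b) =
      X * Rg (g ∘ₗ (π : B →ₐ[k] C).toLinearMap) b := by
  have h1 : ∀ t : B ⊗[k] B, TensorProduct.rid k B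
      ((g ∘ₗ (π : B →ₐ[k] C).toLinearMap).lTensor B t) =
      TensorProduct.rid k B (g.lTensor B (Algebra.TensorProduct.map (AlgHom.id k B)
        (π : B →ₐ[k] C) t)) := by
    intro t
    induction t using TensorProduct.induction_on with
    | zero => simp
    | add s t hs ht => simp only [map_add, hs, ht]
    | tmul a c => rfl
  have h2 : ∀ s : B ⊗[k] C, TensorProduct.rid k B (g.lTensor B ((X ⊗ₜ[k] (1 : C)) * s)) =
      X * TensorProduct.rid k B (g.lTensor B s) := by
    intro s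
    induction s using TensorProduct.induction_on with
    | zero => simp
    | add s t hs ht => simp only [map_add, mul_add, hs, ht]
    | tmul a c => simp
  rw [Rg_apply, Rg_apply, h1, h1, Bialgebra.comul_mul, map_mul, G.rco, h2]

theorem Co.RgR (g : C →ₗ[k] k) (b : B) :
    Rg (g ∘ₗ (π : B →ₐ[k] C).toLinearMap) (b * X) =
      Rg (g ∘ₗ (π : B →ₐ[k] C).toLinearMap) b * X := by
  have h1 : ∀ t : B ⊗[k] B, TensorProduct.rid k B
      ((g ∘ₗ (π : B →ₐ[k] C).toLinearMap).lTensor B t) =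
      TensorProduct.rid k B (g.lTensor B (Algebra.TensorProduct.map (AlgHom.id k B)
        (π : B →ₐ[k] C) t)) := by
    intro t
    induction t using TensorProduct.induction_on with
    | zero => simp
    | add s t hs ht => simp only [map_add, hs, ht]
    | tmul a c => rfl
  have h2 : ∀ s : B ⊗[k] C, TensorProduct.rid k B (g.lTensor B (s * (X ⊗ₜ[k] (1 : C)))) =
      TensorProduct.rid k B (g.lTensor B s) * X := by
    intro s
    induction s using TensorProduct.induction_on with
    | zero => simp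
    | add s t hs ht => simp only [map_add, add_mul, hs, ht]
    | tmul a c => simp
  rw [Rg_apply, Rg_apply, h1, h1, Bialgebra.comul_mul, map_mul, G.rco, h2]

variable [Module.Finite k B] [Module.Finite k C]

/-- `χ` is central modulo `π`. -/
theorem Co.pi_eq (hX : IsNilpotent X) {χ : B →ₐ[k] k} (hχ : Twist X χ) (h0 : X ≠ 0) (b : B) :
    π (rwn χ b) = π (lwn χ b) := by
  refine sep (k := k) _ _ fun g => ?_
  obtain ⟨c, hc⟩ := hχ b
  set gh := g ∘ₗ (π : B →ₐ[k] C).toLinearMap with hgh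
  obtain ⟨c', hc'⟩ := hχ (Rg gh b)
  have h1 := congrArg (Rg gh) hc
  rw [map_sub, G.RgL, G.RgR, pow_two, ← mul_assoc, G.RgR, G.RgR] at h1
  have h2 : (rwn χ (Rg gh b) - Rg gh (rwn χ b)) * X ^ 1 ∈ Ix k X (1 + 1) := by
    refine ⟨Rg gh c - c', ?_⟩
    rw [LinearMap.mulRight_apply, one_add_one_eq_two, pow_one, sub_mul, sub_mul, ← hc', pow_two,
      ← mul_assoc, ← h1]
    abel
  have h3 := free_gen π G.surj X G.ker hX (by rwa [pow_one]) h2
  have h4 := congrArg (Coalgebra.counit (R := k) (A := C)) h3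
  rw [Pool.Agent.Helper90.UN.map_counit π, map_zero, map_sub, counit_rwn, counit_Rg,
    sub_eq_zero] at h4
  have h5 : χ (Rg gh b) = gh (lwn χ b) := by
    have e1 := LinearMap.congr_fun (conv_Rg χ.toLinearMap gh) b
    have e2 := LinearMap.congr_fun (conv_Lf gh χ.toLinearMap) b
    rw [LinearMap.comp_apply] at e1 e2
    rw [lwn_apply, e2]
    exact e1
  rw [h5] at h4
  exact h4.symm

/-- The winding endomorphisms agree. -/
theorem Co.rwn_lwn (hX : IsNilpotent X) {χ : B →ₐ[k] k} (hχ : Twist X χ) (h0 : X ≠ 0)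
    (h : PowCentral χ) : rwn χ = lwn χ := by
  obtain ⟨n, hn, hc⟩ := h
  obtain ⟨N, hN, hχN⟩ := exists_ord χ
  obtain ⟨m, rfl⟩ : ∃ m, N = m + 1 := ⟨N - 1, by omega⟩
  have hR := rwn_pow hχN
  have hL := lwn_pow hχN
  have hcm : Commute (lwn χ) (rwn χ) := (Pool.Agent.Helper90.R2.rwn_lwn χ).symm
  have hRm : ∀ y, rwn χ ((rwn χ ^ m) y) = y := by
    intro y
    have e : rwn χ ((rwn χ ^ m) y) = (rwn χ ^ (m + 1)) y := by
      rw [pow_succ']
      rfl
    rw [e, hR]
    rfl
  have hpowX : ∀ i : ℕ, (rwn χ ^ i) X = X := by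
    intro i
    induction i with
    | zero => rfl
    | succ i ih =>
      have e : (rwn χ ^ (i + 1)) X = rwn χ ((rwn χ ^ i) X) := by
        rw [pow_succ']
        rfl
      rw [e, ih, G.rwnX hX]
  have hθ : lwn χ * rwn χ ^ m = 1 := by
    refine unip hX (lwn χ * rwn χ ^ m) ?_ (fun b => ?_) hn ?_
    · change lwn χ ((rwn χ ^ m) X) = X
      rw [hpowX, G.lwnX hX]
    · obtain ⟨c, hc'⟩ := (G.ker ((lwn χ * rwn χ ^ m) b - b)).1 (by
        rw [map_sub]
        change π (lwn χ ((rwn χ ^ m) b)) - π b = 0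
        rw [← G.pi_eq hX hχ h0, hRm, sub_self])
      exact ⟨c, by rw [← hc']; abel⟩
    · rw [(hcm.pow_right m).mul_pow, lwn_pow_eq hc, ← pow_mul, ← pow_add]
      have e : n + m * n = (m + 1) * n := by ring
      rw [e, pow_mul, hR, one_pow]
  calc rwn χ = (lwn χ * rwn χ ^ m) * rwn χ := by rw [hθ, one_mul]
    _ = lwn χ * (rwn χ ^ (m + 1)) := by rw [mul_assoc, pow_succ]
    _ = lwn χ := by rw [hR, mul_one]

/-- Existence of the character. -/
theorem Co.exists_chi (hX : IsNilpotent X) (h0 : X ≠ 0) : ∃ χ : B →ₐ[k] k, Twist X χ := by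
  refine exists_twist π G.surj X G.ker hX h0 ?_
  have h1 : rho π X = (1 : C) ⊗ₜ[k] X := G.lco
  rw [h1, sub_self]
  exact Submodule.zero_mem _

/-- Uniqueness of the character. -/
theorem Co.chi_unique (hX : IsNilpotent X) (h0 : X ≠ 0) {χ ψ : B →ₐ[k] k} (hχ : Twist X χ)
    (hψ : Twist X ψ) : χ = ψ := by
  refine AlgHom.ext fun b => ?_
  obtain ⟨c, hc⟩ := hχ b
  obtain ⟨d, hd⟩ := hψ b
  have h2 : (rwn χ b - rwn ψ b) * X ^ 1 ∈ Ix k X (1 + 1) := by
    refine ⟨d - c, ?_⟩
    rw [LinearMap.mulRight_apply, one_add_one_eq_two, pow_one, sub_mul, sub_mul, ← hc, ← hd]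
    abel
  have h3 := free_gen π G.surj X G.ker hX (by rwa [pow_one]) h2
  have h4 := congrArg (Coalgebra.counit (R := k) (A := C)) h3
  rw [Pool.Agent.Helper90.UN.map_counit π, map_zero, map_sub, counit_rwn, counit_rwn,
    sub_eq_zero] at h4
  exact h4

/-- Nilpotent coinvariant generators. -/
theorem Co.fge (hX : IsNilpotent X)
    (h : ∃ χ : B →ₐ[k] k, Twist X χ ∧ PowCentral χ) (hC : FGE k C) : FGE k B := by
  by_cases h0 : X = 0
  · have hinj : Function.Injective π := by
      rw [injective_iff_map_eq_zero]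
      intro b hb
      obtain ⟨b', hb'⟩ := (G.ker b).1 hb
      rw [hb', h0, mul_zero]
    exact fge_hopfSub π hinj hC
  · obtain ⟨χ, hχ, hcen⟩ := h
    have hRL := G.rwn_lwn hX hχ h0 hcen
    have hW := wind_of_eq hRL
    have hn : 0 < orderOf (rwn χ) := hW.finOrder.orderOf_pos
    obtain ⟨m, hm⟩ : ∃ m, orderOf (rwn χ) = m + 1 := ⟨orderOf (rwn χ) - 1, by omega⟩
    have hR : rwn χ ^ (m + 1) = 1 := by rw [← hm]; exact pow_orderOf_eq_one _
    have hRm : ∀ y, rwn χ ((rwn χ ^ m) y) = y := by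
      intro y
      have e : rwn χ ((rwn χ ^ m) y) = (rwn χ ^ (m + 1)) y := by
        rw [pow_succ']
        rfl
      rw [e, hR]
      rfl
    have hpowX : ∀ i : ℕ, (rwn χ ^ i) X = X := by
      intro i
      induction i with
      | zero => rfl
      | succ i ih =>
        have e : (rwn χ ^ (i + 1)) X = rwn χ ((rwn χ ^ i) X) := by
          rw [pow_succ']
          rfl
        rw [e, ih, G.rwnX hX]
    refine fge_wind π G.surj X G.ker hX (rwn χ ^ m) (hW.pow m) (hpowX m) (fun b => ?_) hC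
    obtain ⟨c, hc⟩ := hχ ((rwn χ ^ m) b)
    rw [hRm] at hc
    exact ⟨c, hc⟩

end

end Pool.Agent.Helper90.R2
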