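import Pool.Agent.Helper90.R2.Fix
import Pool.Agent.Helper56.SS.Act
import Pool.Agent.Helper77.R1.Gen2
import Pool.Agent.Helper77.R1.Fin

/-!
# Principal nilpotent ideals with a twist by a central character
-/

set_option linter.unusedSectionVars false
set_option autoImplicit false

open scoped TensorProduct
open Pool.Agent.Helper59.FG Pool.Agent.Helper90.FC Pool.Agent.Helper90.UN Pool.Agent.Helper56.SS
open Pool.Agent.Helper90.R1 Pool.Agent.Helper77.R1

namespace Pool.Agent.Helper90.R2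

universe u

section

variable {k : Type u} [Field k] {B C : Type u} [Ring B] [Ring C] [HopfAlgebra k B]
variable [HopfAlgebra k C] [Module.Finite k B] [Module.Finite k C]

/-- Principal nilpotent ideals `B X` with `X b - b X ∈ B X²`. -/
theorem fge_principal (π : B →ₐc[k] C)
    (hs : Function.Surjective π) (X : B) (hk : ∀ b : B, π b = 0 ↔ ∃ b' : B, b = b' * X)
    (hX : IsNilpotent X) (hcen : ∀ b : B, ∃ b' : B, X * b - b * X = b' * X ^ 2)
    (h : FGE k C) : FGE k B := by
  obtain ⟨N, ⟨R⟩⟩ := exists_rdata_cen π hs X hk hX hcen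
  exact fge_of_fgc (fgc_rdata R (fgc_of_fge h))

/-- THEOREM T. Principal nilpotent ideals `B X` with `Φ X = X` and `X Φ(b) - b X ∈ B X²` for a
winding automorphism `Φ` by a central character. -/
theorem fge_wind (π : B →ₐc[k] C)
    (hs : Function.Surjective π) (X : B) (hk : ∀ b : B, π b = 0 ↔ ∃ b' : B, b = b' * X)
    (hX : IsNilpotent X) (Φ : B →ₐ[k] B) (hΦ : Wind Φ) (hΦX : Φ X = X)
    (hcen : ∀ b : B, ∃ b' : B, X * Φ b - b * X = b' * X ^ 2)
    (h : FGE k C) : FGE k B := by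
  obtain ⟨K, i1, i2, j, hj, hjr⟩ := hΦ.exists_K
  have hfK : Module.Finite k K := Module.Finite.of_injective (j : K →ₗ[k] B) hj
  obtain ⟨t, ht⟩ := hΦ.exists_avg j hjr
  obtain ⟨x, hx⟩ := (hjr X).2 hΦX
  obtain ⟨r, hr1, hr2⟩ := exists_retr' j hj
  obtain ⟨C1, i3, i4, g, jC, hg, hjC, hgg⟩ := exists_img (π.comp j)
  have hfC1 : Module.Finite k C1 := Module.Finite.of_injective (jC : C1 →ₗ[k] C) hjC
  have hgg' : ∀ a, jC (g a) = π (j a) := hgg
  have hπX : π X = 0 := (hk X).2 ⟨1, (one_mul X).symm⟩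
  refine fge_avg j hj ht (fge_principal g hg x ?_ ?_ ?_ (fge_hopfSub jC hjC h))
  · intro a
    constructor
    · intro ha
      have h1 : π (j a) = 0 := by rw [← hgg', ha, map_zero]
      obtain ⟨b', hb'⟩ := (hk _).1 h1
      refine ⟨r b', ?_⟩
      rw [← hr1 a, hb', ← hx, hr2]
    · rintro ⟨a', rfl⟩
      apply hjC
      rw [hgg', map_mul, map_mul, hx, hπX, mul_zero, map_zero]
  · obtain ⟨n, hn⟩ := hX
    refine ⟨n, hj ?_⟩
    rw [map_pow, hx, hn, map_zero]
  · intro a
    obtain ⟨b', hb'⟩ := hcen (j a)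
    have h1 : Φ (j a) = j a := (hjr _).1 ⟨a, rfl⟩
    rw [h1] at hb'
    refine ⟨r b', ?_⟩
    have h2 : j (x * a - a * x) = b' * j (x ^ 2) := by
      rw [map_sub, map_mul, map_mul, map_pow, hx, hb']
    rw [← hr1 (x * a - a * x), h2, hr2]

end

end Pool.Agent.Helper90.R2
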