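import Pool.Agent.Helper56.SS.Com
import Pool.Agent.Helper56.SS.HC

/-!
# Winding automorphisms by central characters

`Wind Φ`: the algebra endomorphism `Φ` of the Hopf algebra `B` commutes with left and right
translations: `Φ b = b₁ χ(b₂) = χ(b₁) b₂` for the character `χ = ε Φ`. The fixed points of `Φ` form a
Hopf subalgebra `K`, and there is an averaging element for `K` in `B`.
-/

set_option linter.unusedSectionVars false
set_option autoImplicit false

open scoped TensorProduct
open Pool.Agent.Helper59.FG Pool.Agent.Helper90.FC Pool.Agent.Helper90.UN Pool.Agent.Helper56.SS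

namespace Pool.Agent.Helper90.R2

universe u

section

variable {k : Type u} [Field k] {B : Type u} [Ring B] [HopfAlgebra k B]

/-- An algebra endomorphism which commutes with left and right translations. -/
structure Wind (Φ : B →ₐ[k] B) : Prop where
  l : ∀ b, Coalgebra.comul (R := k) (Φ b) = Φ.toLinearMap.lTensor B (Coalgebra.comul (R := k) b)
  r : ∀ b, Coalgebra.comul (R := k) (Φ b) = Φ.toLinearMap.rTensor B (Coalgebra.comul (R := k) b)

theorem Wind.one : Wind (k := k) (1 : B →ₐ[k] B) where
  l b := by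
    have h : (1 : B →ₐ[k] B).toLinearMap = LinearMap.id := rfl
    rw [h, LinearMap.lTensor_id]
    rfl
  r b := by
    have h : (1 : B →ₐ[k] B).toLinearMap = LinearMap.id := rfl
    rw [h, LinearMap.rTensor_id]
    rfl

theorem Wind.mul {Φ Ψ : B →ₐ[k] B} (hΦ : Wind Φ) (hΨ : Wind Ψ) : Wind (Φ * Ψ) where
  l b := by
    have h : (Φ * Ψ).toLinearMap = Φ.toLinearMap ∘ₗ Ψ.toLinearMap := rfl
    rw [h, LinearMap.lTensor_comp, LinearMap.comp_apply, ← hΨ.l]
    exact hΦ.l (Ψ b)
  r b := by
    have h : (Φ * Ψ).toLinearMap = Φ.toLinearMap ∘ₗ Ψ.toLinearMap := rfl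
    rw [h, LinearMap.rTensor_comp, LinearMap.comp_apply, ← hΨ.r]
    exact hΦ.r (Ψ b)

theorem Wind.pow {Φ : B →ₐ[k] B} (hΦ : Wind Φ) (n : ℕ) : Wind (Φ ^ n) := by
  induction n with
  | zero => rw [pow_zero]; exact Wind.one
  | succ n ih => rw [pow_succ]; exact ih.mul hΦ

/-- The character of a winding endomorphism. -/
noncomputable def chr (Φ : B →ₐ[k] B) : B →ₐ[k] k := (Bialgebra.counitAlgHom k B).comp Φ

theorem chr_apply (Φ : B →ₐ[k] B) (b : B) : chr Φ b = Coalgebra.counit (R := k) (Φ b) := rfl

theorem Wind.eq_rid {Φ : B →ₐ[k] B} (hΦ : Wind Φ) (b : B) :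
    Φ b = TensorProduct.rid k B ((chr Φ).toLinearMap.lTensor B (Coalgebra.comul (R := k) b)) := by
  have h : (chr Φ).toLinearMap = (Coalgebra.counit (R := k) (A := B)) ∘ₗ Φ.toLinearMap := rfl
  rw [h, LinearMap.lTensor_comp, LinearMap.comp_apply, ← hΦ.l, Coalgebra.lTensor_counit_comul,
    TensorProduct.rid_tmul, one_smul]

theorem Wind.ext {Φ Ψ : B →ₐ[k] B} (hΦ : Wind Φ) (hΨ : Wind Ψ) (h : chr Φ = chr Ψ) : Φ = Ψ := by
  refine AlgHom.ext fun b => ?_
  rw [hΦ.eq_rid, hΨ.eq_rid, h]

theorem Wind.inj {Φ : B →ₐ[k] B} (hΦ : Wind Φ) : Function.Injective Φ := by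
  rw [injective_iff_map_eq_zero]
  -- the counit vanishes on the kernel
  have h0 : ∀ b, Φ b = 0 → Coalgebra.counit (R := k) b = 0 := by
    intro b hb
    have h1 : ∀ t : B ⊗[k] B, Φ (LinearMap.mul' k B ((HopfAlgebra.antipode k).lTensor B t)) =
        LinearMap.mul' k B ((Φ.toLinearMap ∘ₗ HopfAlgebra.antipode k).lTensor B
          (Φ.toLinearMap.rTensor B t)) := by
      intro t
      induction t using TensorProduct.induction_on with
      | zero => simp
      | add s t hs ht => simp only [map_add, hs, ht]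
      | tmul a c =>
        rw [LinearMap.lTensor_tmul, LinearMap.mul'_apply, map_mul, LinearMap.rTensor_tmul,
          LinearMap.lTensor_tmul, LinearMap.mul'_apply]
        rfl
    have h2 := h1 (Coalgebra.comul (R := k) b)
    rw [← hΦ.r, hb, map_zero, map_zero, map_zero, HopfAlgebra.mul_antipode_lTensor_comul_apply,
      AlgHom.commutes] at h2
    have h3 := congrArg (Coalgebra.counit (R := k) (A := B)) h2
    rwa [Bialgebra.counit_algebraMap, map_zero] at h3
  intro b hb
  have h1 : (Coalgebra.counit (R := k) (A := B)) ∈ LinearMap.range Φ.toLinearMap.dualMap := by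
    rw [LinearMap.range_dualMap_eq_dualAnnihilator_ker, Submodule.mem_dualAnnihilator]
    intro c hc
    exact h0 c (LinearMap.mem_ker.1 hc)
  obtain ⟨g, hg⟩ := h1
  have hg' : g ∘ₗ Φ.toLinearMap = Coalgebra.counit (R := k) (A := B) := hg
  have h2 := congrArg (TensorProduct.lid k B) (Coalgebra.rTensor_counit_comul (R := k) b)
  rw [TensorProduct.lid_tmul, one_smul] at h2
  rw [← h2, ← hg', LinearMap.rTensor_comp, LinearMap.comp_apply, ← hΦ.r, hb, map_zero, map_zero,
    map_zero]

instance finite_char [Module.Finite k B] : Finite (B →ₐ[k] k) := by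
  have h := linearIndependent_toLinearMap k B k
  exact (h.finite : _)

end

end Pool.Agent.Helper90.R2
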